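import Pool.Agent.H8.DigTuran.Upper

/-!
# The numerical upper bound
-/

set_option autoImplicit false

open Finset Filter Topology

namespace Pool.Agent.H8.DigTuran

lemma six_choose (n : ℕ) : 6 * n.choose 3 = n * (n - 1) * (n - 2) := by
  have h := Nat.descFactorial_eq_factorial_mul_choose n 3
  simp only [Nat.descFactorial, Nat.factorial] at h
  norm_num at h
  rw [← h]
  ring

lemma six_choose_real {n : ℕ} (hn : 2 ≤ n) :
    6 * (n.choose 3 : ℝ) = n * (n - 1) * (n - 2) := by
  have h := six_choose n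
  have h' : ((6 * n.choose 3 : ℕ) : ℝ) = ((n * (n - 1) * (n - 2) : ℕ) : ℝ) := by rw [h]
  push_cast at h'
  rw [Nat.cast_sub (by omega), Nat.cast_sub hn] at h'
  push_cast at h'
  exact h'

lemma six_choose_ge (n : ℕ) : (n : ℝ) ^ 3 - 3 * n ^ 2 ≤ 6 * (n.choose 3 : ℝ) := by
  rcases Nat.lt_or_ge n 2 with h | h
  · interval_cases n <;> norm_num [Nat.choose]
  · rw [six_choose_real h]
    nlinarith [show (0 : ℝ) ≤ n by positivity]

lemma six_choose_le (n : ℕ) : 6 * (n.choose 3 : ℝ) ≤ (n : ℝ) ^ 3 := by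
  rcases Nat.lt_or_ge n 2 with h | h
  · interval_cases n <;> norm_num [Nat.choose]
  · rw [six_choose_real h]
    have : (2 : ℝ) ≤ n := by exact_mod_cast h
    nlinarith

variable {n : ℕ} (c : Fin n → ℕ)

/-- upper bound for the number of edges -/
theorem card_le {m : ℕ} (hm : 2 ≤ m) {D : ℕ → ℕ → Prop}
    (hG : CliqueFree n m (digraph3 n c D)) :
    6 * ((digraph3 n c D).card : ℝ) ≤ 6 * (n.choose 3 : ℝ) - 4 * (n : ℝ) ^ 3 / ((m : ℝ) - 1) ^ 2
      + 15 * (n : ℝ) ^ 2 := by
  classical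
  set B : Finset ℕ := (cols c).filter (fun i => m ≤ (part c i).card) with hB
  set ι : Fin B.card → ℕ := fun j => B.orderEmbOfFin rfl j with hι
  have hιinj : Function.Injective ι := (B.orderEmbOfFin rfl).injective
  have hιmem : ∀ j, ι j ∈ B := fun j => Finset.orderEmbOfFin_mem B rfl j
  have hbig : ∀ j, m ≤ (part c (ι j)).card := fun j => (Finset.mem_filter.1 (hιmem j)).2
  have hloop : ∀ j, D (ι j) (ι j) := fun j => loop_of_big c hG (hbig j)
  have hsumB : ∀ f : ℕ → ℝ, ∑ j, f (ι j) = ∑ i ∈ B, f i := by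
    intro f
    conv_rhs => rw [← Finset.map_orderEmbOfFin_univ B rfl, Finset.sum_map]
    rfl
  set x : Fin B.card → ℝ := fun j => ((part c (ι j)).card : ℝ) with hx
  have hx0 : ∀ j, 0 ≤ x j := fun j => by positivity
  set N : ℝ := ∑ j, x j with hN
  have hm1 : (1 : ℝ) ≤ (m : ℝ) - 1 := by
    have : (2 : ℝ) ≤ m := by exact_mod_cast hm
    linarith
  set d := dmat D ι with hd
  have hadj : Adj d := adj_dmat D ι
  -- cubic inequality
  have hcub := cubic B.card d hadj ((m : ℝ) - 1) (fun a ha => by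
    have h1 := ind_sum_lt c hm hG hιinj hbig ha
    have h2 : ∑ i, a i ≤ (m : ℤ) - 1 := by omega
    calc ((∑ i, a i : ℤ) : ℝ) ≤ (((m : ℤ) - 1 : ℤ) : ℝ) := by exact_mod_cast h2
      _ = (m : ℝ) - 1 := by push_cast; ring) x hx0
  -- the covered vertices
  have hcols : ∑ i ∈ cols c, ((part c i).card : ℝ) = n := by
    have h1 : (Finset.univ : Finset (Fin n)).card = ∑ i ∈ cols c, (part c i).card := by
      refine Finset.card_eq_sum_card_fiberwise (f := c) (fun v _ => ?_)
      simp [cols]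
    rw [Finset.card_univ, Fintype.card_fin] at h1
    calc ∑ i ∈ cols c, ((part c i).card : ℝ) = ((∑ i ∈ cols c, (part c i).card : ℕ) : ℝ) := by
          push_cast; rfl
      _ = n := by rw [← h1]
  have hNn : (n : ℝ) - ((m : ℝ) - 1) ^ 2 ≤ N := by
    have h1 : ∑ i ∈ cols c, ((part c i).card : ℝ) = ∑ i ∈ B, ((part c i).card : ℝ)
        + ∑ i ∈ (cols c).filter (fun i => ¬ m ≤ (part c i).card), ((part c i).card : ℝ) := by
      rw [hB, Finset.sum_filter_add_sum_filter_not]
    have h2 : ∑ i ∈ (cols c).filter (fun i => ¬ m ≤ (part c i).card), ((part c i).card : ℝ)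
        ≤ ((m : ℝ) - 1) ^ 2 := by
      calc ∑ i ∈ (cols c).filter (fun i => ¬ m ≤ (part c i).card), ((part c i).card : ℝ)
          ≤ ∑ i ∈ (cols c).filter (fun i => ¬ m ≤ (part c i).card), ((m : ℝ) - 1) := by
            refine Finset.sum_le_sum fun i hi => ?_
            have h3 := (Finset.mem_filter.1 hi).2
            have h4 : (part c i).card + 1 ≤ m := by omega
            have h5 : (((part c i).card + 1 : ℕ) : ℝ) ≤ m := by exact_mod_cast h4
            push_cast at h5
            linarith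
        _ = (((cols c).filter (fun i => ¬ m ≤ (part c i).card)).card : ℝ) * ((m : ℝ) - 1) := by
            rw [Finset.sum_const, nsmul_eq_mul]
        _ ≤ ((m : ℝ) - 1) * ((m : ℝ) - 1) := by
            refine mul_le_mul_of_nonneg_right ?_ (by linarith)
            have h3 := card_cols_lt c hG
            have h4 := Finset.card_filter_le (cols c) (fun i => ¬ m ≤ (part c i).card)
            have h5 : ((cols c).filter (fun i => ¬ m ≤ (part c i).card)).card + 1 ≤ m := by omega
            have h6 : ((((cols c).filter (fun i => ¬ m ≤ (part c i).card)).card + 1 : ℕ) : ℝ) ≤ m :=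
              by exact_mod_cast h5
            push_cast at h6
            linarith
        _ = ((m : ℝ) - 1) ^ 2 := by ring
    have h3 : N = ∑ i ∈ B, ((part c i).card : ℝ) := by
      rw [hN, ← hsumB (fun i => ((part c i).card : ℝ))]
    linarith
  have hN0 : 0 ≤ N := Finset.sum_nonneg fun j _ => hx0 j
  have hNle : N ≤ n := by
    have h3 : N = ∑ i ∈ B, ((part c i).card : ℝ) := by
      rw [hN, ← hsumB (fun i => ((part c i).card : ℝ))]
    rw [h3, ← hcols]
    exact Finset.sum_le_sum_of_subset_of_nonneg (Finset.filter_subset _ _)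
      (fun i _ _ => by positivity)
  -- missing triples
  have hmiss := card_miss_ge c D hιinj hloop
  have hmiss' : ∑ j, ((part c (ι j)).card.choose 3 : ℝ)
      + ∑ i, ∑ j, (d i j : ℝ) * ((part c (ι i)).card.choose 2 * (part c (ι j)).card)
      ≤ ((miss c D).card : ℝ) := by
    exact_mod_cast hmiss
  have hT : Tf d x - 3 * N ^ 2 ≤ 6 * ((miss c D).card : ℝ) := by
    have h1 : ∑ j, x j ^ 3 - 3 * ∑ j, x j ^ 2 ≤ 6 * ∑ j, ((part c (ι j)).card.choose 3 : ℝ) := by
      rw [Finset.mul_sum, Finset.mul_sum, ← Finset.sum_sub_distrib]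
      exact Finset.sum_le_sum fun j _ => six_choose_ge _
    have h2 : 6 * ∑ i, ∑ j, (d i j : ℝ) * ((part c (ι i)).card.choose 2 * (part c (ι j)).card)
        = 3 * ∑ i, ∑ j, (d i j : ℝ) * (x i ^ 2 * x j) - 3 * ∑ i, ∑ j, (d i j : ℝ) * (x i * x j) := by
      rw [Finset.mul_sum, Finset.mul_sum, Finset.mul_sum, ← Finset.sum_sub_distrib]
      refine Finset.sum_congr rfl fun i _ => ?_
      rw [Finset.mul_sum, Finset.mul_sum, Finset.mul_sum, ← Finset.sum_sub_distrib]
      refine Finset.sum_congr rfl fun j _ => ?_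
      rw [Nat.cast_choose_two]
      simp only [hx]
      ring
    have h3 : ∑ j, x j ^ 2 + ∑ i, ∑ j, (d i j : ℝ) * (x i * x j) ≤ N ^ 2 := by
      have h4 : N ^ 2 = ∑ i, ∑ j, x i * x j := by
        rw [hN, sq, Finset.sum_mul_sum]
      have h5 : ∑ j, x j ^ 2 = ∑ i, ∑ j, (if i = j then x i * x j else 0) := by
        refine Finset.sum_congr rfl fun i _ => ?_
        rw [Finset.sum_ite_eq]
        simp [sq]
      rw [h4, h5, ← Finset.sum_add_distrib]
      refine Finset.sum_le_sum fun i _ => ?_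
      rw [← Finset.sum_add_distrib]
      refine Finset.sum_le_sum fun j _ => ?_
      have h6 : 0 ≤ x i * x j := mul_nonneg (hx0 i) (hx0 j)
      by_cases hij : i = j
      · subst hij
        rw [hadj.irr]
        simp
      · have h7 : (d i j : ℝ) ≤ 1 := by exact_mod_cast hadj.le_one i j
        simp only [hij, if_false, zero_add]
        nlinarith
    have h8 : Tf d x = ∑ j, x j ^ 3 + 3 * ∑ i, ∑ j, (d i j : ℝ) * (x i ^ 2 * x j) := rfl
    nlinarith [hmiss', h1, h2, h3]
  have hsum : ((digraph3 n c D).card : ℝ) + (miss c D).card = n.choose 3 := by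
    exact_mod_cast card_add_miss c D
  -- final computation
  set s : ℝ := ((m : ℝ) - 1) ^ 2 with hs
  have hs1 : 1 ≤ s := by nlinarith
  have hspos : 0 < s := by linarith
  have hn0 : (0 : ℝ) ≤ n := by positivity
  have hfin : 4 * (n : ℝ) ^ 3 / s - 15 * (n : ℝ) ^ 2 ≤ 6 * ((miss c D).card : ℝ) := by
    rcases le_or_gt s n with h | h
    · have h1 : 4 * N ^ 3 / s ≤ Tf d x := by
        rw [div_le_iff₀ hspos]
        linarith
      have h2 : ((n : ℝ) - s) ^ 3 ≤ N ^ 3 := pow_le_pow_left₀ (by linarith) hNn 3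
      have h3 : (n : ℝ) ^ 3 - 3 * n ^ 2 * s ≤ ((n : ℝ) - s) ^ 3 := by
        have e : ((n : ℝ) - s) ^ 3 = (n : ℝ) ^ 3 - 3 * n ^ 2 * s + s ^ 2 * (3 * n - s) := by ring
        have : 0 ≤ s ^ 2 * (3 * n - s) := mul_nonneg (sq_nonneg _) (by linarith)
        linarith
      have h4 : 4 * (n : ℝ) ^ 3 / s - 12 * n ^ 2 ≤ 4 * N ^ 3 / s := by
        rw [div_sub' hspos.ne', div_le_div_iff_of_pos_right hspos]
        nlinarith
      have h5 : N ^ 2 ≤ (n : ℝ) ^ 2 := pow_le_pow_left₀ hN0 hNle 2
      linarith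
    · have h1 : 4 * (n : ℝ) ^ 3 / s ≤ 4 * (n : ℝ) ^ 2 := by
        rw [div_le_iff₀ hspos]
        have : (n : ℝ) ^ 3 = n ^ 2 * n := by ring
        rw [this]
        nlinarith [sq_nonneg (n : ℝ)]
      have h2 : (0 : ℝ) ≤ 6 * ((miss c D).card : ℝ) := by positivity
      nlinarith [sq_nonneg (n : ℝ)]
  linarith

end Pool.Agent.H8.DigTuran
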