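import Mathlib

/-!
# Digraph patterns and Turán's conjecture: the combinatorial certificate

`d` is the 0/1 adjacency matrix of a loopless digraph on `Fin k`. An independent vector is
`a : Fin k → {0,1,2}` with `a i = 2 → a j = 0` for every arc `i → j`. Averaging the independent
vectors which maximise `Psi` gives a vector `U` with `M U ≥ 4`.
-/

set_option autoImplicit false

open Finset

namespace Pool.Agent.H8.DigTuran

variable {k : ℕ}

/-- adjacency matrix of a loopless digraph -/
structure Adj (d : Fin k → Fin k → ℤ) : Prop where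
  zo : ∀ i j, d i j = 0 ∨ d i j = 1
  irr : ∀ i, d i i = 0

/-- independent vectors -/
structure Ind (d : Fin k → Fin k → ℤ) (a : Fin k → ℤ) : Prop where
  val : ∀ i, a i = 0 ∨ a i = 1 ∨ a i = 2
  arc : ∀ i j, d i j = 1 → a i = 2 → a j = 0

/-- weight of the out-neighbourhood -/
def outn (d : Fin k → Fin k → ℤ) (a : Fin k → ℤ) (z : Fin k) : ℤ := ∑ j, d z j * a j

/-- weight of the in-neighbourhood -/
def inn (d : Fin k → Fin k → ℤ) (a : Fin k → ℤ) (z : Fin k) : ℤ := ∑ j, d j z * a j

/-- potential -/
def Psi (d : Fin k → Fin k → ℤ) (a : Fin k → ℤ) : ℤ :=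
  (100 * (k + 1)) * ∑ i, a i - 2 * ∑ i, a i * a i - 3 * ∑ i, a i * outn d a i

/-- maximisers of the potential -/
structure Opt (d : Fin k → Fin k → ℤ) (a : Fin k → ℤ) : Prop extends Ind d a where
  max : ∀ b, Ind d b → Psi d b ≤ Psi d a

variable {d : Fin k → Fin k → ℤ} {a : Fin k → ℤ}

lemma Adj.nonneg (hd : Adj d) (i j : Fin k) : 0 ≤ d i j := by
  rcases hd.zo i j with h | h <;> omega

lemma Adj.le_one (hd : Adj d) (i j : Fin k) : d i j ≤ 1 := by
  rcases hd.zo i j with h | h <;> omega

lemma Ind.nonneg (ha : Ind d a) (i : Fin k) : 0 ≤ a i := by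
  rcases ha.val i with h | h | h <;> omega

lemma Ind.le_two (ha : Ind d a) (i : Fin k) : a i ≤ 2 := by
  rcases ha.val i with h | h | h <;> omega

lemma outn_nonneg (hd : Adj d) (ha : Ind d a) (z : Fin k) : 0 ≤ outn d a z :=
  Finset.sum_nonneg fun j _ => mul_nonneg (hd.nonneg z j) (ha.nonneg j)

lemma inn_nonneg (hd : Adj d) (ha : Ind d a) (z : Fin k) : 0 ≤ inn d a z :=
  Finset.sum_nonneg fun j _ => mul_nonneg (hd.nonneg j z) (ha.nonneg j)

lemma outn_le (hd : Adj d) (ha : Ind d a) (z : Fin k) : outn d a z ≤ 2 * k := by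
  have : outn d a z ≤ ∑ _j : Fin k, (2 : ℤ) := by
    refine Finset.sum_le_sum fun j _ => ?_
    have h1 := hd.nonneg z j
    have h2 := hd.le_one z j
    have h3 := ha.nonneg j
    have h4 := ha.le_two j
    nlinarith
  simpa [mul_comm] using this

lemma inn_le (hd : Adj d) (ha : Ind d a) (z : Fin k) : inn d a z ≤ 2 * k := by
  have : inn d a z ≤ ∑ _j : Fin k, (2 : ℤ) := by
    refine Finset.sum_le_sum fun j _ => ?_
    have h1 := hd.nonneg j z
    have h2 := hd.le_one j z
    have h3 := ha.nonneg j
    have h4 := ha.le_two j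
    nlinarith
  simpa [mul_comm] using this

lemma outn_ge (hd : Adj d) (ha : Ind d a) {z j : Fin k} (h : d z j = 1) : a j ≤ outn d a z := by
  have := Finset.single_le_sum (f := fun j => d z j * a j)
    (fun j _ => mul_nonneg (hd.nonneg z j) (ha.nonneg j)) (Finset.mem_univ j)
  unfold outn
  simpa [h] using this

lemma inn_ge (hd : Adj d) (ha : Ind d a) {z j : Fin k} (h : d j z = 1) : a j ≤ inn d a z := by
  have := Finset.single_le_sum (f := fun j => d j z * a j)
    (fun j _ => mul_nonneg (hd.nonneg j z) (ha.nonneg j)) (Finset.mem_univ j)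
  unfold inn
  simpa [h] using this

lemma inn_ge₂ (hd : Adj d) (ha : Ind d a) {z i j : Fin k} (hij : i ≠ j) (hi : d i z = 1)
    (h : d j z = 1) : a i + a j ≤ inn d a z := by
  have := Finset.add_le_sum (f := fun j => d j z * a j) (s := Finset.univ)
    (fun j _ => mul_nonneg (hd.nonneg j z) (ha.nonneg j)) (Finset.mem_univ i)
    (Finset.mem_univ j) hij
  unfold inn
  simpa [h, hi] using this

lemma outn_ge₂ (hd : Adj d) (ha : Ind d a) {z i j : Fin k} (hij : i ≠ j) (hi : d z i = 1)
    (h : d z j = 1) : a i + a j ≤ outn d a z := by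
  have := Finset.add_le_sum (f := fun j => d z j * a j) (s := Finset.univ)
    (fun j _ => mul_nonneg (hd.nonneg z j) (ha.nonneg j)) (Finset.mem_univ i)
    (Finset.mem_univ j) hij
  unfold outn
  simpa [h, hi] using this

/-- change of the potential under a perturbation `δ` -/
lemma Psi_add (d : Fin k → Fin k → ℤ) (a δ : Fin k → ℤ) :
    Psi d (a + δ) = Psi d a + (100 * (k + 1)) * ∑ i, δ i - 4 * ∑ i, δ i * a i
      - 2 * ∑ i, δ i * δ i - 3 * ∑ i, δ i * (outn d a i + inn d a i)
      - 3 * ∑ i, δ i * outn d δ i := by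
  have h1 : ∑ i, (a + δ) i = ∑ i, a i + ∑ i, δ i := by
    simp [Finset.sum_add_distrib]
  have h2 : ∑ i, (a + δ) i * (a + δ) i = ∑ i, a i * a i + 2 * ∑ i, δ i * a i + ∑ i, δ i * δ i := by
    rw [Finset.mul_sum, ← Finset.sum_add_distrib, ← Finset.sum_add_distrib]
    refine Finset.sum_congr rfl fun i _ => ?_
    simp only [Pi.add_apply]
    ring
  have h3 : ∀ i, outn d (a + δ) i = outn d a i + outn d δ i := by
    intro i
    unfold outn
    rw [← Finset.sum_add_distrib]
    refine Finset.sum_congr rfl fun j _ => ?_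
    simp only [Pi.add_apply]
    ring
  have h4 : ∑ i, a i * outn d δ i = ∑ i, δ i * inn d a i := by
    unfold outn inn
    simp_rw [Finset.mul_sum]
    rw [Finset.sum_comm]
    refine Finset.sum_congr rfl fun j _ => Finset.sum_congr rfl fun i _ => ?_
    ring
  have h5 : ∑ i, (a + δ) i * outn d (a + δ) i = ∑ i, a i * outn d a i
      + ∑ i, δ i * (outn d a i + inn d a i) + ∑ i, δ i * outn d δ i := by
    have : ∑ i, δ i * (outn d a i + inn d a i)
        = ∑ i, δ i * outn d a i + ∑ i, a i * outn d δ i := by
      rw [h4, ← Finset.sum_add_distrib]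
      refine Finset.sum_congr rfl fun i _ => ?_
      ring
    rw [this, ← Finset.sum_add_distrib, ← Finset.sum_add_distrib, ← Finset.sum_add_distrib]
    refine Finset.sum_congr rfl fun i _ => ?_
    rw [h3]
    simp only [Pi.add_apply]
    ring
  unfold Psi
  rw [h1, h2, h5]
  ring

/-- change of the potential, one site -/
lemma Psi_one (hd : Adj d) (a : Fin k → ℤ) (s : Fin k) (p : ℤ) :
    Psi d (a + Pi.single s p) = Psi d a + (100 * (k + 1)) * p - 4 * (p * a s) - 2 * (p * p)
      - 3 * (p * (outn d a s + inn d a s)) := by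
  rw [Psi_add]
  have h : ∀ f : Fin k → ℤ, ∑ i, (Pi.single s p : Fin k → ℤ) i * f i = p * f s := by
    intro f
    simp [Pi.single_apply]
  have h1 : ∑ i, (Pi.single s p : Fin k → ℤ) i = p := by simp
  have h2 : outn d (Pi.single s p) s = 0 := by
    unfold outn
    simp [Pi.single_apply, hd.irr s]
  rw [h, h, h, h, h1, h2]
  simp

lemma Psi_two (hd : Adj d) (a : Fin k → ℤ) {s z : Fin k} (hsz : s ≠ z) (p q : ℤ) :
    Psi d (a + (Pi.single s p + Pi.single z q)) = Psi d a + (100 * (k + 1)) * (p + q)
      - 4 * (p * a s + q * a z) - 2 * (p * p + q * q)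
      - 3 * (p * (outn d a s + inn d a s) + q * (outn d a z + inn d a z))
      - 3 * (p * q * (d s z + d z s)) := by
  rw [Psi_add]
  have h : ∀ f : Fin k → ℤ, ∑ i, (Pi.single s p + Pi.single z q : Fin k → ℤ) i * f i
      = p * f s + q * f z := by
    intro f
    simp [Pi.single_apply, add_mul, Finset.sum_add_distrib]
  have h1 : ∑ i, (Pi.single s p + Pi.single z q : Fin k → ℤ) i = p + q := by
    simp [Finset.sum_add_distrib]
  have ho : ∀ i, outn d (Pi.single s p + Pi.single z q) i = d i s * p + d i z * q := by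
    intro i
    unfold outn
    simp [Pi.single_apply, mul_add, Finset.sum_add_distrib]
  rw [h, h, h, h, h1, ho, ho]
  simp [hsz, hsz.symm, hd.irr s, hd.irr z]
  ring

lemma Psi_three (hd : Adj d) (a : Fin k → ℤ) {s z v : Fin k} (hsz : s ≠ z) (hsv : s ≠ v)
    (hzv : z ≠ v) (p q r : ℤ) :
    Psi d (a + (Pi.single s p + Pi.single z q + Pi.single v r)) = Psi d a
      + (100 * (k + 1)) * (p + q + r)
      - 4 * (p * a s + q * a z + r * a v) - 2 * (p * p + q * q + r * r)
      - 3 * (p * (outn d a s + inn d a s) + q * (outn d a z + inn d a z)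
        + r * (outn d a v + inn d a v))
      - 3 * (p * q * (d s z + d z s) + p * r * (d s v + d v s) + q * r * (d z v + d v z)) := by
  rw [Psi_add]
  have h : ∀ f : Fin k → ℤ, ∑ i, (Pi.single s p + Pi.single z q + Pi.single v r : Fin k → ℤ) i
      * f i = p * f s + q * f z + r * f v := by
    intro f
    simp [Pi.single_apply, add_mul, Finset.sum_add_distrib]
  have h1 : ∑ i, (Pi.single s p + Pi.single z q + Pi.single v r : Fin k → ℤ) i = p + q + r := by
    simp [Finset.sum_add_distrib]
  have ho : ∀ i, outn d (Pi.single s p + Pi.single z q + Pi.single v r) i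
      = d i s * p + d i z * q + d i v * r := by
    intro i
    unfold outn
    simp [Pi.single_apply, mul_add, Finset.sum_add_distrib]
  rw [h, h, h, h, h1, ho, ho, ho]
  simp [hsz, hsz.symm, hsv, hsv.symm, hzv, hzv.symm, hd.irr s, hd.irr z, hd.irr v]
  ring

/-- (M0) -/
lemma Opt.exists_two (hd : Adj d) (ha : Opt d a) {z : Fin k} (hz : a z = 0) :
    ∃ s, d s z = 1 ∧ a s = 2 := by
  by_contra hcon
  push Not at hcon
  have hb : Ind d (a + Pi.single z 1) := by
    refine ⟨fun i => ?_, fun i j hij hi => ?_⟩
    · by_cases h : i = z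
      · subst h; simp [hz]
      · simpa [h] using ha.val i
    · by_cases h : i = z
      · subst h; simp [hz] at hi
      · have hi' : a i = 2 := by simpa [h] using hi
        have hj : j ≠ z := by
          rintro rfl
          exact hcon i hij hi'
        simpa [hj] using ha.arc i j hij hi'
  have h1 := ha.max _ hb
  rw [Psi_one hd, hz] at h1
  have h2 := outn_le hd ha.toInd z
  have h3 := inn_le hd ha.toInd z
  have h4 : (0 : ℤ) ≤ k := by positivity
  linarith

/-- (M1) -/
lemma Opt.outn_pos (hd : Adj d) (ha : Opt d a) {z : Fin k} (hz : a z = 1) :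
    1 ≤ outn d a z := by
  by_contra hcon
  have h0 : ∀ j, d z j = 1 → a j = 0 := by
    intro j hj
    have h1 := outn_ge hd ha.toInd hj
    have h2 := ha.nonneg j
    omega
  have hb : Ind d (a + Pi.single z 1) := by
    refine ⟨fun i => ?_, fun i j hij hi => ?_⟩
    · by_cases h : i = z
      · subst h; simp [hz]
      · simpa [h] using ha.val i
    · by_cases h : i = z
      · subst h
        have hj : j ≠ i := by
          rintro rfl
          rw [hd.irr] at hij
          exact absurd hij (by norm_num)
        simpa [hj] using h0 j hij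
      · have hi' : a i = 2 := by simpa [h] using hi
        have haj := ha.arc i j hij hi'
        have hj : j ≠ z := by
          rintro rfl
          omega
        simpa [hj] using haj
  have h1 := ha.max _ hb
  rw [Psi_one hd, hz] at h1
  have h2 := outn_le hd ha.toInd z
  have h3 := inn_le hd ha.toInd z
  have h4 : (0 : ℤ) ≤ k := by positivity
  linarith

/-- (M2) -/
lemma Opt.outn_pos' (hd : Adj d) (ha : Opt d a) {s z : Fin k} (hz : a z = 0) (hs : a s = 2)
    (hsz : d s z = 1) (huniq : ∀ i, d i z = 1 → a i = 2 → i = s) : 1 ≤ outn d a z := by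
  by_contra hcon
  have h0 : ∀ j, d z j = 1 → a j = 0 := by
    intro j hj
    have h1 := outn_ge hd ha.toInd hj
    have h2 := ha.nonneg j
    omega
  have hne : s ≠ z := by
    rintro rfl
    omega
  have hb : Ind d (a + (Pi.single s (-1) + Pi.single z 2)) := by
    have hbs : (a + (Pi.single s (-1) + Pi.single z 2) : Fin k → ℤ) s = 1 := by simp [hne, hs]
    have hbz : (a + (Pi.single s (-1) + Pi.single z 2) : Fin k → ℤ) z = 2 := by simp [hne.symm, hz]
    have hbo : ∀ i, i ≠ s → i ≠ z → (a + (Pi.single s (-1) + Pi.single z 2) : Fin k → ℤ) i = a i := by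
      intro i h1 h2
      simp [h1, h2]
    refine ⟨fun i => ?_, fun i j hij hi => ?_⟩
    · by_cases h : i = z
      · subst h; rw [hbz]; simp
      · by_cases h' : i = s
        · subst h'; rw [hbs]; simp
        · rw [hbo i h' h]; exact ha.val i
    · by_cases h : i = z
      · subst h
        have hj : j ≠ i := by
          rintro rfl
          rw [hd.irr] at hij
          exact absurd hij (by norm_num)
        have haj := h0 j hij
        have hjs : j ≠ s := by
          rintro rfl
          omega
        rw [hbo j hjs hj]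
        exact haj
      · by_cases h' : i = s
        · subst h'; omega
        · rw [hbo i h' h] at hi
          have haj := ha.arc i j hij hi
          have hjs : j ≠ s := by
            rintro rfl
            omega
          have hjz : j ≠ z := by
            rintro rfl
            exact h' (huniq i hij hi)
          rw [hbo j hjs hjz]
          exact haj
  have h1 := ha.max _ hb
  rw [Psi_two hd a hne, hz, hs] at h1
  have h2 := outn_le hd ha.toInd z
  have h3 := inn_le hd ha.toInd z
  have h2' := outn_nonneg hd ha.toInd s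
  have h3' := inn_nonneg hd ha.toInd s
  have h4 : (0 : ℤ) ≤ k := by positivity
  have h5 := hd.nonneg z s
  have h6 := hd.nonneg s z
  linarith

lemma exists_of_sum_one {f : Fin k → ℤ} (hf : ∀ i, 0 ≤ f i) (h : ∑ i, f i = 1) :
    ∃ p, f p = 1 ∧ ∀ i, i ≠ p → f i = 0 := by
  have : ∃ p, f p ≠ 0 := by
    by_contra hcon
    push Not at hcon
    simp [hcon] at h
  obtain ⟨p, hp⟩ := this
  have hp1 : f p ≤ 1 := by
    rw [← h]
    exact Finset.single_le_sum (fun i _ => hf i) (Finset.mem_univ p)
  have hp2 := hf p
  have hp3 : f p = 1 := by omega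
  refine ⟨p, hp3, fun i hi => ?_⟩
  have := Finset.add_le_sum (s := Finset.univ) (fun i _ => hf i) (Finset.mem_univ i)
    (Finset.mem_univ p) hi
  have h2 := hf i
  omega

/-- (MW): no weak vertex -/
lemma Opt.not_weak (hd : Adj d) (ha : Opt d a) {z : Fin k} (hz : a z = 1) (hin : inn d a z = 0)
    (hout : outn d a z = 1) : False := by
  obtain ⟨p, hp, hp0⟩ := exists_of_sum_one (f := fun j => d z j * a j)
    (fun j => mul_nonneg (hd.nonneg z j) (ha.nonneg j)) hout
  have hdp : d z p = 1 := by
    rcases hd.zo z p with h | h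
    · rw [h] at hp; omega
    · exact h
  have hap : a p = 1 := by rw [hdp] at hp; omega
  have hne : z ≠ p := by
    rintro rfl
    rw [hd.irr] at hdp
    omega
  have hpz : d p z = 0 := by
    rcases hd.zo p z with h | h
    · exact h
    · have := inn_ge hd ha.toInd h
      omega
  have hb : Ind d (a + (Pi.single z 1 + Pi.single p (-1))) := by
    have hbs : (a + (Pi.single z 1 + Pi.single p (-1)) : Fin k → ℤ) z = 2 := by simp [hne, hz]
    have hbz : (a + (Pi.single z 1 + Pi.single p (-1)) : Fin k → ℤ) p = 0 := by simp [hne.symm, hap]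
    have hbo : ∀ i, i ≠ z → i ≠ p → (a + (Pi.single z 1 + Pi.single p (-1)) : Fin k → ℤ) i = a i := by
      intro i h1 h2
      simp [h1, h2]
    refine ⟨fun i => ?_, fun i j hij hi => ?_⟩
    · by_cases h : i = z
      · subst h; rw [hbs]; simp
      · by_cases h' : i = p
        · subst h'; rw [hbz]; simp
        · rw [hbo i h h']; exact ha.val i
    · by_cases h : i = z
      · subst h
        have hj : j ≠ i := by
          rintro rfl
          rw [hd.irr] at hij
          exact absurd hij (by norm_num)
        by_cases hjp : j = p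
        · subst hjp; exact hbz
        · rw [hbo j hj hjp]
          have := hp0 j hjp
          rw [hij, one_mul] at this
          exact this
      · by_cases h' : i = p
        · subst h'; omega
        · rw [hbo i h h'] at hi
          have haj := ha.arc i j hij hi
          have hjs : j ≠ z := by
            rintro rfl
            omega
          have hjz : j ≠ p := by
            rintro rfl
            omega
          rw [hbo j hjs hjz]
          exact haj
  have h1 := ha.max _ hb
  rw [Psi_two hd a hne, hz, hap, hin, hout, hpz, hdp] at h1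
  have h2 := ha.outn_pos hd hap
  have h3 := inn_ge hd ha.toInd hdp
  rw [hz] at h3
  linarith

/-- (M3) -/
lemma Opt.struct3 (hd : Adj d) (ha : Opt d a) {s z : Fin k} (hz : a z = 0) (hs : a s = 2)
    (hsz : d s z = 1) (huniq : ∀ i, d i z = 1 → a i = 2 → i = s)
    (hnb : outn d a z + inn d a z ≤ 3) :
    outn d a z = 1 ∧ inn d a z = 2 ∧ inn d a s = 0 ∧ outn d a s = 0 ∧ d z s = 0 := by
  have h1 := ha.outn_pos' hd hz hs hsz huniq
  have h2 := inn_ge hd ha.toInd hsz
  have h3 : outn d a z = 1 := by omega
  have h4 : inn d a z = 2 := by omega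
  have hne : s ≠ z := by
    rintro rfl
    omega
  have hb : Ind d (a + (Pi.single s (-1) + Pi.single z 1)) := by
    have hbs : (a + (Pi.single s (-1) + Pi.single z 1) : Fin k → ℤ) s = 1 := by simp [hne, hs]
    have hbz : (a + (Pi.single s (-1) + Pi.single z 1) : Fin k → ℤ) z = 1 := by simp [hne.symm, hz]
    have hbo : ∀ i, i ≠ s → i ≠ z → (a + (Pi.single s (-1) + Pi.single z 1) : Fin k → ℤ) i = a i := by
      intro i h1 h2
      simp [h1, h2]
    refine ⟨fun i => ?_, fun i j hij hi => ?_⟩
    · by_cases h : i = z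
      · subst h; rw [hbz]; simp
      · by_cases h' : i = s
        · subst h'; rw [hbs]; simp
        · rw [hbo i h' h]; exact ha.val i
    · by_cases h : i = z
      · subst h; omega
      · by_cases h' : i = s
        · subst h'; omega
        · rw [hbo i h' h] at hi
          have haj := ha.arc i j hij hi
          have hjs : j ≠ s := by
            rintro rfl
            omega
          have hjz : j ≠ z := by
            rintro rfl
            exact h' (huniq i hij hi)
          rw [hbo j hjs hjz]
          exact haj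
  have h5 := ha.max _ hb
  rw [Psi_two hd a hne, hz, hs, h3, h4, hsz] at h5
  have h6 := outn_nonneg hd ha.toInd s
  have h7 := inn_nonneg hd ha.toInd s
  have h8 := hd.nonneg z s
  refine ⟨h3, h4, ?_, ?_, ?_⟩ <;> omega

/-- (M4): the swap -/
lemma Opt.swap (hd : Adj d) (ha : Opt d a) {s z : Fin k} (hz : a z = 0) (hs : a s = 2)
    (hsz : d s z = 1) (huniq : ∀ i, d i z = 1 → a i = 2 → i = s)
    (hnb : outn d a z + inn d a z ≤ 3) :
    ∃ v, s ≠ v ∧ z ≠ v ∧ a v = 1 ∧
      Opt d (a + (Pi.single s (-1) + Pi.single z 2 + Pi.single v (-1))) := by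
  obtain ⟨h1, h2, h3, h4, h5⟩ := ha.struct3 hd hz hs hsz huniq hnb
  obtain ⟨v, hv, hv0⟩ := exists_of_sum_one (f := fun j => d z j * a j)
    (fun j => mul_nonneg (hd.nonneg z j) (ha.nonneg j)) h1
  have hdv : d z v = 1 := by
    rcases hd.zo z v with h | h
    · rw [h] at hv; omega
    · exact h
  have hav : a v = 1 := by rw [hdv] at hv; omega
  have hne : s ≠ z := by
    rintro rfl
    omega
  have hzv : z ≠ v := by
    rintro rfl
    omega
  have hsv : s ≠ v := by
    rintro rfl
    omega
  have hdvz : d v z = 0 := by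
    rcases hd.zo v z with h | h
    · exact h
    · have := inn_ge₂ hd ha.toInd hsv hsz h
      omega
  have hdsv : d s v = 0 := by
    rcases hd.zo s v with h | h
    · exact h
    · have := ha.arc s v h hs
      omega
  have hdvs : d v s = 0 := by
    rcases hd.zo v s with h | h
    · exact h
    · have := inn_ge hd ha.toInd h
      omega
  set b := a + (Pi.single s (-1) + Pi.single z 2 + Pi.single v (-1)) with hbdef
  have hbs : b s = 1 := by simp [hbdef, hne, hsv, hs]
  have hbz : b z = 2 := by simp [hbdef, hne.symm, hzv, hz]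
  have hbv : b v = 0 := by simp [hbdef, hsv.symm, hzv.symm, hav]
  have hbo : ∀ i, i ≠ s → i ≠ z → i ≠ v → b i = a i := by
    intro i h1 h2 h3
    simp [hbdef, h1, h2, h3]
  have hb : Ind d b := by
    refine ⟨fun i => ?_, fun i j hij hi => ?_⟩
    · by_cases h : i = z
      · subst h; rw [hbz]; simp
      · by_cases h' : i = s
        · subst h'; rw [hbs]; simp
        · by_cases h'' : i = v
          · subst h''; rw [hbv]; simp
          · rw [hbo i h' h h'']; exact ha.val i
    · by_cases h : i = z
      · subst h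
        have hj : j ≠ i := by
          rintro rfl
          rw [hd.irr] at hij
          exact absurd hij (by norm_num)
        by_cases hjv : j = v
        · subst hjv; exact hbv
        · have haj : a j = 0 := by
            have := hv0 j hjv
            rw [hij, one_mul] at this
            exact this
          have hjs : j ≠ s := by
            rintro rfl
            omega
          rw [hbo j hjs hj hjv]
          exact haj
      · by_cases h' : i = s
        · subst h'; omega
        · by_cases h'' : i = v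
          · subst h''; omega
          · rw [hbo i h' h h''] at hi
            have haj := ha.arc i j hij hi
            have hjs : j ≠ s := by
              rintro rfl
              omega
            have hjv : j ≠ v := by
              rintro rfl
              omega
            have hjz : j ≠ z := by
              rintro rfl
              exact h' (huniq i hij hi)
            rw [hbo j hjs hjz hjv]
            exact haj
  have hP : Psi d b = Psi d a - 6 + 3 * (outn d a v + inn d a v) := by
    rw [hbdef, Psi_three hd a hne hsv hzv, hz, hs, hav, h1, h2, h3, h4, h5, hsz, hdv, hdvz,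
      hdsv, hdvs]
    ring
  have h6 := ha.max _ hb
  have h7 := ha.outn_pos hd hav
  have h8 := inn_nonneg hd ha.toInd v
  have h9 : ¬ (outn d a v = 1 ∧ inn d a v = 0) := fun h => ha.not_weak hd hav h.2 h.1
  have h10 : Psi d b = Psi d a := by omega
  refine ⟨v, hsv, hzv, hav, ⟨hb, fun c hc => ?_⟩⟩
  rw [h10]
  exact ha.max c hc

/-- diagonal coefficient `1 + max (outdegree, 1)` -/
def diag (d : Fin k → Fin k → ℤ) (z : Fin k) : ℤ := 1 + max (∑ j, d z j) 1

lemma two_le_diag (z : Fin k) : 2 ≤ diag d z := by
  unfold diag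
  have := le_max_right (∑ j, d z j) 1
  omega

/-- the value `(M a)_z` -/
def cv (d : Fin k → Fin k → ℤ) (a : Fin k → ℤ) (z : Fin k) : ℤ :=
  diag d z * a z + (outn d a z + inn d a z)

/-- a deficient vertex is of type `z ∈ A_0` -/
lemma Opt.cv_ge_of_ne (hd : Adj d) (ha : Opt d a) {z : Fin k} (hz : a z ≠ 0) : 4 ≤ cv d a z := by
  have h1 := two_le_diag (d := d) z
  have h2 := outn_nonneg hd ha.toInd z
  have h3 := inn_nonneg hd ha.toInd z
  unfold cv
  rcases ha.val z with h | h | h
  · exact absurd h hz
  · have h4 := ha.outn_pos hd h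
    have h5 : ¬ (outn d a z = 1 ∧ inn d a z = 0) := fun h' => ha.not_weak hd h h'.2 h'.1
    rw [h]
    omega
  · rw [h]
    omega

lemma Opt.cv_ge_of_eq (hd : Adj d) (ha : Opt d a) {z : Fin k} (hz : a z = 0) :
    3 ≤ cv d a z ∧ (cv d a z ≤ 3 → ∃ s v, s ≠ z ∧ s ≠ v ∧ z ≠ v ∧ a s = 2 ∧ a v = 1 ∧ d s z = 1 ∧
      inn d a z = 2 ∧
      Opt d (a + (Pi.single s (-1) + Pi.single z 2 + Pi.single v (-1)))) := by
  obtain ⟨s, hs1, hs2⟩ := ha.exists_two hd hz
  have hcv : cv d a z = outn d a z + inn d a z := by
    unfold cv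
    rw [hz]
    ring
  have h2 := outn_nonneg hd ha.toInd z
  have h3 := inn_nonneg hd ha.toInd z
  by_cases huniq : ∀ i, d i z = 1 → a i = 2 → i = s
  · have h4 := ha.outn_pos' hd hz hs2 hs1 huniq
    have h5 := inn_ge hd ha.toInd hs1
    refine ⟨by omega, fun h => ?_⟩
    have hnb : outn d a z + inn d a z ≤ 3 := by omega
    obtain ⟨v, h6, h7, h8, h9⟩ := ha.swap hd hz hs2 hs1 huniq hnb
    have h10 := ha.struct3 hd hz hs2 hs1 huniq hnb
    refine ⟨s, v, ?_, h6, h7, hs2, h8, hs1, h10.2.1, h9⟩
    rintro rfl
    omega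
  · push Not at huniq
    obtain ⟨i, hi1, hi2, hi3⟩ := huniq
    have := inn_ge₂ hd ha.toInd hi3 hi1 hs1
    omega

/-- the set of maximisers -/
noncomputable def optSet (d : Fin k → Fin k → ℤ) : Finset (Fin k → ℤ) := by
  classical
  exact (Fintype.piFinset fun _ => ({0, 1, 2} : Finset ℤ)).filter (Opt d)

lemma mem_optSet {a : Fin k → ℤ} : a ∈ optSet d ↔ Opt d a := by
  classical
  unfold optSet
  rw [Finset.mem_filter, Fintype.mem_piFinset]
  constructor
  · exact fun h => h.2
  · intro h
    refine ⟨fun i => ?_, h⟩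
    rcases h.val i with h | h | h <;> simp [h]

lemma optSet_nonempty (d : Fin k → Fin k → ℤ) : (optSet d).Nonempty := by
  classical
  set I : Finset (Fin k → ℤ) := (Fintype.piFinset fun _ => ({0, 1, 2} : Finset ℤ)).filter (Ind d)
    with hI
  have hmem : ∀ a, a ∈ I ↔ Ind d a := by
    intro a
    rw [hI, Finset.mem_filter, Fintype.mem_piFinset]
    constructor
    · exact fun h => h.2
    · intro h
      refine ⟨fun i => ?_, h⟩
      rcases h.val i with h | h | h <;> simp [h]
  have hne : I.Nonempty := by
    refine ⟨fun _ => 1, (hmem _).2 ⟨fun i => by simp, fun i j _ h => ?_⟩⟩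
    omega
  obtain ⟨a, ha, hmax⟩ := Finset.exists_max_image I (Psi d) hne
  exact ⟨a, mem_optSet.2 ⟨(hmem a).1 ha, fun b hb => hmax b ((hmem b).2 hb)⟩⟩

/-- the average over the maximisers satisfies `M ā ≥ 4` -/
theorem sum_cv_ge (hd : Adj d) (z : Fin k) :
    4 * ((optSet d).card : ℤ) ≤ ∑ a ∈ optSet d, cv d a z := by
  classical
  set O := optSet d with hO
  set B := O.filter (fun a => cv d a z ≤ 3) with hB
  have hBprop : ∀ a ∈ B, ∃ s v, s ≠ z ∧ s ≠ v ∧ z ≠ v ∧ a s = 2 ∧ a v = 1 ∧ d s z = 1 ∧
      inn d a z = 2 ∧ a z = 0 ∧ Opt d a ∧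
      Opt d (a + (Pi.single s (-1) + Pi.single z 2 + Pi.single v (-1))) := by
    intro a ha
    rw [hB, Finset.mem_filter, hO, mem_optSet] at ha
    have hz : a z = 0 := by
      by_contra hne
      have := ha.1.cv_ge_of_ne hd hne
      omega
    obtain ⟨s, v, h1, h2, h3, h4, h5, h6, h7, h8⟩ := (ha.1.cv_ge_of_eq hd hz).2 ha.2
    exact ⟨s, v, h1, h2, h3, h4, h5, h6, h7, hz, ha.1, h8⟩
  haveI : Nonempty (Fin k) := ⟨z⟩
  choose! S V hSV using hBprop
  set τ : (Fin k → ℤ) → (Fin k → ℤ) :=
    fun a => a + (Pi.single (S a) (-1) + Pi.single z 2 + Pi.single (V a) (-1)) with hτ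
  have hτs : ∀ a ∈ B, τ a (S a) = 1 := by
    intro a ha
    obtain ⟨h1, h2, h3, h4, h5, h6, h7, h8, h9, h10⟩ := hSV a ha
    simp [hτ, h1, h2, h4]
  have hτz : ∀ a ∈ B, τ a z = 2 := by
    intro a ha
    obtain ⟨h1, h2, h3, h4, h5, h6, h7, h8, h9, h10⟩ := hSV a ha
    simp [hτ, h1.symm, h3, h8]
  have hτv : ∀ a ∈ B, τ a (V a) = 0 := by
    intro a ha
    obtain ⟨h1, h2, h3, h4, h5, h6, h7, h8, h9, h10⟩ := hSV a ha
    simp [hτ, h2.symm, h3.symm, h5]
  have hτo : ∀ a, ∀ i, i ≠ S a → i ≠ z → i ≠ V a → τ a i = a i := by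
    intro a i h1 h2 h3
    simp [hτ, h1, h2, h3]
  -- τ maps B into the part with cv ≥ 5
  set C := O.filter (fun a => 5 ≤ cv d a z) with hC
  have hmaps : ∀ a ∈ B, τ a ∈ C := by
    intro a ha
    obtain ⟨h1, h2, h3, h4, h5, h6, h7, h8, h9, h10⟩ := hSV a ha
    rw [hC, Finset.mem_filter, hO, mem_optSet]
    refine ⟨h10, ?_⟩
    have e1 := inn_ge hd (a := τ a) h10.toInd h6
    rw [hτs a ha] at e1
    have e2 := outn_nonneg hd (a := τ a) h10.toInd z
    have e3 := two_le_diag (d := d) z
    unfold cv
    rw [hτz a ha]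
    omega
  have hinj : Set.InjOn τ (B : Set (Fin k → ℤ)) := by
    intro a ha b hb hab
    have ha' : a ∈ B := ha
    have hb' : b ∈ B := hb
    obtain ⟨h1, h2, h3, h4, h5, h6, h7, h8, h9, h10⟩ := hSV a ha'
    obtain ⟨g1, g2, g3, g4, g5, g6, g7, g8, g9, g10⟩ := hSV b hb'
    have hS : S a = S b := by
      by_contra hne
      have e1 : τ b (S a) = 1 := by rw [← hab]; exact hτs a ha'
      have e2 : S a ≠ V b := by
        intro e
        rw [e, hτv b hb'] at e1
        omega
      rw [hτo b (S a) hne h1 e2] at e1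
      have := inn_ge₂ hd g9.toInd hne h6 g6
      omega
    have hV : V a = V b := by
      by_contra hne
      have e0 : τ a (V b) = 0 := by rw [hab]; exact hτv b hb'
      have e1 : a (V b) = 0 := by
        rwa [hτo a (V b) (by rw [hS]; exact g2.symm) g3.symm (Ne.symm hne)] at e0
      obtain ⟨s', hs1, hs2⟩ := h9.exists_two hd e1
      have e2 : b s' = 2 := by
        by_cases c1 : s' = S b
        · rw [c1]; exact g4
        · have c2 : s' ≠ z := by rintro rfl; omega
          have c3 : s' ≠ V a := by rintro rfl; omega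
          have c4 : s' ≠ V b := by rintro rfl; omega
          have e3 : τ a s' = 2 := by
            rw [hτo a s' (by rw [hS]; exact c1) c2 c3]; exact hs2
          rw [hab, hτo b s' c1 c2 c4] at e3
          exact e3
      have := g9.arc s' (V b) hs1 e2
      omega
    have : τ a = τ b := hab
    simp only [hτ, hS, hV] at this
    exact add_right_cancel this
  have hcard : B.card ≤ C.card := Finset.card_le_card_of_injOn τ hmaps hinj
  have hdisj : Disjoint B C := by
    rw [Finset.disjoint_left]
    intro a ha hb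
    rw [hB, Finset.mem_filter] at ha
    rw [hC, Finset.mem_filter] at hb
    omega
  -- pointwise bound
  have hpt : ∀ a ∈ O, 4 - (if a ∈ B then 1 else 0) + (if a ∈ C then 1 else 0) ≤ cv d a z := by
    intro a ha
    have haO : Opt d a := by rw [hO, mem_optSet] at ha; exact ha
    by_cases h1 : a ∈ B
    · have h2 : a ∉ C := Finset.disjoint_left.1 hdisj h1
      have h3 := hSV a h1
      have h4 := (haO.cv_ge_of_eq hd h3.2.2.2.2.2.2.2.1).1
      simp only [h1, h2, if_true, if_false]
      omega
    · by_cases h2 : a ∈ C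
      · have h3 : 5 ≤ cv d a z := (Finset.mem_filter.1 h2).2
        simp only [h1, h2, if_true, if_false]
        omega
      · have h3 : ¬ cv d a z ≤ 3 := fun h => h1 (Finset.mem_filter.2 ⟨ha, h⟩)
        simp only [h1, h2, if_false]
        omega
  have hsum := Finset.sum_le_sum hpt
  have hBO : B ⊆ O := Finset.filter_subset _ _
  have hCO : C ⊆ O := Finset.filter_subset _ _
  rw [Finset.sum_add_distrib, Finset.sum_sub_distrib, Finset.sum_const,
    Finset.sum_ite_mem, Finset.sum_ite_mem, Finset.inter_eq_right.2 hBO,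
    Finset.inter_eq_right.2 hCO, Finset.sum_const, Finset.sum_const] at hsum
  simp only [nsmul_eq_mul, mul_one] at hsum
  have : (B.card : ℤ) ≤ C.card := by exact_mod_cast hcard
  linarith

end Pool.Agent.H8.DigTuran
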