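import Pool.Agent.H8.DigTuran.Quad

/-!
# Digraph patterns: the cubic inequality `A² T(w) ≥ 4 (∑ w)³`
-/

set_option autoImplicit false

open Finset Filter Topology

namespace Pool.Agent.H8.DigTuran

variable {k : ℕ}

/-- the cubic form: all triples inside a part and the triples `V_i V_i V_j` for arcs `i → j` -/
noncomputable def Tf (d : Fin k → Fin k → ℤ) (w : Fin k → ℝ) : ℝ :=
  ∑ i, w i ^ 3 + 3 * ∑ i, ∑ j, (d i j : ℝ) * (w i ^ 2 * w j)

/-- the derivative (divided by 3) -/
noncomputable def Rf (d : Fin k → Fin k → ℤ) (w : Fin k → ℝ) (i : Fin k) : ℝ :=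
  w i ^ 2 + 2 * (w i * ∑ j, (d i j : ℝ) * w j) + ∑ j, (d j i : ℝ) * w j ^ 2

lemma Tf_smul (d : Fin k → Fin k → ℤ) (c : ℝ) (x : Fin k → ℝ) :
    Tf d (c • x) = c ^ 3 * Tf d x := by
  unfold Tf
  simp only [Pi.smul_apply, smul_eq_mul, Finset.mul_sum, mul_add]
  congr 1
  · exact Finset.sum_congr rfl fun j _ => by ring
  · exact Finset.sum_congr rfl fun i _ => Finset.sum_congr rfl fun j _ => by ring

lemma continuous_Tf (d : Fin k → Fin k → ℤ) : Continuous (Tf d) := by
  unfold Tf
  fun_prop

lemma sum_pow_single (w : Fin k → ℝ) (i : Fin k) (t : ℝ) (c : Fin k → ℝ) (n : ℕ) :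
    ∑ j, c j * (w + Pi.single i t : Fin k → ℝ) j ^ n
      = ∑ j, c j * w j ^ n + c i * ((w i + t) ^ n - w i ^ n) := by
  rw [← sub_eq_iff_eq_add', ← Finset.sum_sub_distrib, Finset.sum_eq_single i]
  · simp; ring
  · intro j _ hj
    simp [hj]
  · simp

lemma Tf_add_single {d : Fin k → Fin k → ℤ} (hd : Adj d) (w : Fin k → ℝ) (i : Fin k) (t : ℝ) :
    Tf d (w + Pi.single i t) = Tf d w + t * (3 * Rf d w i)
      + t ^ 2 * (3 * w i + 3 * ∑ j, (d i j : ℝ) * w j) + t ^ 3 := by
  have h0 : (d i i : ℝ) = 0 := by rw [hd.irr]; norm_num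
  set v : Fin k → ℝ := w + Pi.single i t with hv
  have h1 : ∑ j, v j ^ 3 = ∑ j, w j ^ 3 + ((w i + t) ^ 3 - w i ^ 3) := by
    have := sum_pow_single w i t (fun _ => 1) 3
    simp only [one_mul] at this
    exact this
  have h2 : ∀ l, ∑ j, (d l j : ℝ) * v j = ∑ j, (d l j : ℝ) * w j + d l i * t := by
    intro l
    have := sum_pow_single w i t (fun j => (d l j : ℝ)) 1
    simp only [pow_one] at this
    rw [hv, this]
    ring
  have h3 : ∑ l, ∑ j, (d l j : ℝ) * (v l ^ 2 * v j)
      = ∑ l, (∑ j, (d l j : ℝ) * w j + d l i * t) * v l ^ 2 := by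
    refine Finset.sum_congr rfl fun l _ => ?_
    rw [← h2, Finset.sum_mul]
    exact Finset.sum_congr rfl fun j _ => by ring
  have h4 : ∑ l, ∑ j, (d l j : ℝ) * (w l ^ 2 * w j)
      = ∑ l, (∑ j, (d l j : ℝ) * w j) * w l ^ 2 := by
    refine Finset.sum_congr rfl fun l _ => ?_
    rw [Finset.sum_mul]
    exact Finset.sum_congr rfl fun j _ => by ring
  unfold Tf
  rw [h1, h3, h4, sum_pow_single w i t _ 2, h0]
  have h5 : ∑ j, (∑ j_1, (d j j_1 : ℝ) * w j_1 + d j i * t) * w j ^ 2
      = ∑ l, (∑ j, (d l j : ℝ) * w j) * w l ^ 2 + t * ∑ j, (d j i : ℝ) * w j ^ 2 := by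
    rw [Finset.mul_sum, ← Finset.sum_add_distrib]
    exact Finset.sum_congr rfl fun j _ => by ring
  rw [h5]
  unfold Rf
  ring

lemma Tf_del {d : Fin (k + 1) → Fin (k + 1) → ℤ} (p : Fin (k + 1))
    {x : Fin (k + 1) → ℝ} (hp : x p = 0) :
    Tf (del d p) (fun i => x (p.succAbove i)) = Tf d x := by
  unfold Tf
  rw [Fin.sum_univ_succAbove _ p, Fin.sum_univ_succAbove (fun i => ∑ j, (d i j : ℝ) * _) p, hp]
  have : ∀ i, ∑ j, (d (p.succAbove i) j : ℝ) * (x (p.succAbove i) ^ 2 * x j)
      = ∑ j : Fin k, (del d p i j : ℝ) * (x (p.succAbove i) ^ 2 * x (p.succAbove j)) := by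
    intro i
    rw [Fin.sum_univ_succAbove _ p, hp]
    simp [del]
  simp [this]

/-- the cubic inequality -/
theorem cubic (k : ℕ) : ∀ (d : Fin k → Fin k → ℤ) (_ : Adj d) (A : ℝ)
    (_ : ∀ a, Ind d a → ((∑ i, a i : ℤ) : ℝ) ≤ A) (x : Fin k → ℝ) (_ : ∀ i, 0 ≤ x i),
    4 * (∑ i, x i) ^ 3 ≤ A ^ 2 * Tf d x := by
  induction k with
  | zero =>
    intro d hd A hA x hx
    simp [Tf]
  | succ k IH =>
    intro d hd A hA x hx
    by_contra hcon
    push Not at hcon
    have hA1 : (0 : ℝ) < A := by
      have h1 : Ind d (fun _ => 1) := ⟨fun i => by simp, fun i j _ h => by omega⟩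
      have := hA _ h1
      push_cast at this
      simp at this
      have h2 : (0 : ℝ) ≤ k := by positivity
      linarith
    set f : (Fin (k + 1) → ℝ) → ℝ := fun x => A ^ 2 * Tf d x - 4 * (∑ i, x i) ^ 3 with hf
    have hfx : f x < 0 := by simp only [hf]; linarith
    have hfs : ∀ (c : ℝ) (y : Fin (k + 1) → ℝ), f (c • y) = c ^ 3 * f y := by
      intro c y
      simp only [hf, Tf_smul, Pi.smul_apply, smul_eq_mul, ← Finset.mul_sum]
      ring
    have hfc : Continuous f := by
      have := continuous_Tf d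
      simp only [hf]
      fun_prop
    obtain ⟨y, hyS, hymin⟩ := (isCompact_stdSimplex ℝ (Fin (k + 1))).exists_isMinOn
      (⟨_, single_mem_stdSimplex ℝ (0 : Fin (k + 1))⟩) hfc.continuousOn
    -- homogeneous lower bound
    have hlow : ∀ z : Fin (k + 1) → ℝ, (∀ i, 0 ≤ z i) → f y * (∑ i, z i) ^ 3 ≤ f z := by
      intro z hz
      by_cases hs : 0 < ∑ i, z i
      · have hmem : (∑ i, z i)⁻¹ • z ∈ stdSimplex ℝ (Fin (k + 1)) := by
          refine ⟨fun i => ?_, ?_⟩
          · simp only [Pi.smul_apply, smul_eq_mul]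
            exact mul_nonneg (inv_nonneg.2 hs.le) (hz i)
          · simp only [Pi.smul_apply, smul_eq_mul, ← Finset.mul_sum]
            exact inv_mul_cancel₀ hs.ne'
        have h1 : f y ≤ f ((∑ i, z i)⁻¹ • z) := hymin hmem
        rw [hfs] at h1
        have h2 : (0 : ℝ) < (∑ i, z i) ^ 3 := by positivity
        calc f y * (∑ i, z i) ^ 3 ≤ ((∑ i, z i)⁻¹ ^ 3 * f z) * (∑ i, z i) ^ 3 :=
              mul_le_mul_of_nonneg_right h1 h2.le
          _ = f z := by field_simp
      · have h0 := sum_pos_of hz (not_lt.1 hs)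
        subst h0
        simp [hf, Tf]
    have hfy : f y < 0 := by
      have := hlow x hx
      by_contra hge
      push Not at hge
      have h3 : 0 ≤ ∑ i, x i := Finset.sum_nonneg fun i _ => hx i
      have h2 : 0 ≤ f y * (∑ i, x i) ^ 3 := by positivity
      linarith
    have hy0 : ∀ i, 0 ≤ y i := hyS.1
    have hy1 : ∑ i, y i = 1 := hyS.2
    by_cases hz : ∃ p, y p = 0
    · obtain ⟨p, hp⟩ := hz
      have h1 := IH (del d p) (adj_del hd p) A (fun a ha => by
        have := hA _ (ind_del p ha)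
        rwa [sum_insertNth] at this) (fun i => y (p.succAbove i)) (fun i => hy0 _)
      rw [Tf_del p hp] at h1
      have h3 : ∑ i, y (p.succAbove i) = ∑ i, y i := by
        rw [Fin.sum_univ_succAbove _ p, hp, zero_add]
      rw [h3] at h1
      simp only [hf] at hfy
      linarith
    · push Not at hz
      have hpos : ∀ i, 0 < y i := fun i => lt_of_le_of_ne (hy0 i) (Ne.symm (hz i))
      -- critical point equations
      have hcrit : ∀ i, A ^ 2 * Rf d y i = 4 + f y := by
        intro i
        have key : (3 * A ^ 2 * Rf d y i - 12 - 3 * f y) = 0 := by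
          refine coeff_zero (q := A ^ 2 * (3 * y i + 3 * ∑ j, (d i j : ℝ) * y j) - 12 - 3 * f y)
            (r := A ^ 2 - 4 - f y) (hpos i) (fun t ht => ?_)
          have hz' : ∀ j, 0 ≤ (y + Pi.single i t : Fin (k + 1) → ℝ) j := by
            intro j
            by_cases hj : j = i
            · subst hj
              simp only [Pi.add_apply, Pi.single_eq_same]
              have := (abs_lt.1 ht).1
              linarith
            · simpa [hj] using hy0 j
          have h1 := hlow _ hz'
          have h2 : ∑ j, (y + Pi.single i t : Fin (k + 1) → ℝ) j = 1 + t := by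
            simp [Finset.sum_add_distrib, hy1]
          have h3 : f (y + Pi.single i t) = f y + t * (3 * A ^ 2 * Rf d y i - 12)
              + t ^ 2 * (A ^ 2 * (3 * y i + 3 * ∑ j, (d i j : ℝ) * y j) - 12)
              + t ^ 3 * (A ^ 2 - 4) := by
            simp only [hf]
            rw [h2, Tf_add_single hd, hy1]
            ring
          rw [h2, h3] at h1
          have h4 : f y * (1 + t) ^ 3 = f y + t * (3 * f y) + t ^ 2 * (3 * f y) + t ^ 3 * f y := by
            ring
          rw [h4] at h1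
          have h5 : t * (3 * A ^ 2 * Rf d y i - 12 - 3 * f y)
              + t ^ 2 * (A ^ 2 * (3 * y i + 3 * ∑ j, (d i j : ℝ) * y j) - 12 - 3 * f y)
              + t ^ 3 * (A ^ 2 - 4 - f y)
              = (f y + t * (3 * A ^ 2 * Rf d y i - 12)
              + t ^ 2 * (A ^ 2 * (3 * y i + 3 * ∑ j, (d i j : ℝ) * y j) - 12)
              + t ^ 3 * (A ^ 2 - 4))
              - (f y + t * (3 * f y) + t ^ 2 * (3 * f y) + t ^ 3 * f y) := by ring
          rw [h5]
          linarith
        linarith
      -- multipliers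
      set μ : Fin (k + 1) → ℤ := fun i => if ∑ j, d i j = 0 then 2 else 1 with hμ
      have hμ1 : ∀ i, 1 ≤ μ i := by
        intro i
        simp only [hμ]
        split_ifs <;> norm_num
      have hμI : Ind d μ := by
        refine ⟨fun i => ?_, fun i j hij hi => ?_⟩
        · simp only [hμ]
          split_ifs <;> simp
        · exfalso
          simp only [hμ] at hi
          split_ifs at hi with h
          · have h1 := Finset.single_le_sum (f := fun j => d i j)
              (fun j _ => hd.nonneg i j) (Finset.mem_univ j)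
            omega
          · omega
      have hμA := hA μ hμI
      have hdiag : ∀ i, diag d i = μ i + ∑ j, d i j := by
        intro i
        have h1 : 0 ≤ ∑ j, d i j := Finset.sum_nonneg fun j _ => hd.nonneg i j
        unfold diag
        simp only [hμ]
        split_ifs <;> omega
      have hR0 : ∀ i, 0 ≤ Rf d y i := by
        intro i
        unfold Rf
        have h1 : 0 ≤ ∑ j, (d i j : ℝ) * y j := Finset.sum_nonneg fun j _ =>
          mul_nonneg (by exact_mod_cast hd.nonneg i j) (hy0 j)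
        have h2 : 0 ≤ ∑ j, (d j i : ℝ) * y j ^ 2 := Finset.sum_nonneg fun j _ =>
          mul_nonneg (by exact_mod_cast hd.nonneg j i) (sq_nonneg _)
        have h3 := hy0 i
        positivity
      have h4f : 0 ≤ 4 + f y := by
        rw [← hcrit 0]
        exact mul_nonneg (sq_nonneg _) (hR0 0)
      -- the weighted sum dominates the quadratic form
      have hQ : Qf d y ≤ ∑ i, (μ i : ℝ) * Rf d y i := by
        have e1 : Qf d y = ∑ i, (μ i : ℝ) * y i ^ 2 + ∑ i, ∑ j, (d i j : ℝ) * y i ^ 2
            + 2 * ∑ i, ∑ j, (d i j : ℝ) * (y i * y j) := by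
          unfold Qf Mv
          have e2 : ∑ i, ∑ j, (d i j : ℝ) * (y i * y j) = ∑ i, ∑ j, (d j i : ℝ) * (y i * y j) := by
            rw [Finset.sum_comm]
            exact Finset.sum_congr rfl fun i _ => Finset.sum_congr rfl fun j _ => by ring
          have e3 : 2 * ∑ i, ∑ j, (d i j : ℝ) * (y i * y j)
              = ∑ i, ∑ j, ((d i j : ℝ) + d j i) * (y i * y j) := by
            rw [two_mul]
            nth_rewrite 2 [e2]
            rw [← Finset.sum_add_distrib]
            refine Finset.sum_congr rfl fun i _ => ?_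
            rw [← Finset.sum_add_distrib]
            exact Finset.sum_congr rfl fun j _ => by ring
          rw [e3, ← Finset.sum_add_distrib, ← Finset.sum_add_distrib]
          refine Finset.sum_congr rfl fun i _ => ?_
          rw [hdiag i]
          push_cast
          rw [← Finset.sum_mul, mul_add, Finset.mul_sum, add_mul]
          congr 1
          · ring
          · exact Finset.sum_congr rfl fun j _ => by ring
        have e4 : ∑ i, (μ i : ℝ) * Rf d y i = ∑ i, (μ i : ℝ) * y i ^ 2
            + 2 * ∑ i, ∑ j, (μ i : ℝ) * ((d i j : ℝ) * (y i * y j))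
            + ∑ i, ∑ j, (μ j : ℝ) * ((d i j : ℝ) * y i ^ 2) := by
          have e5 : ∑ i, ∑ j, (μ j : ℝ) * ((d i j : ℝ) * y i ^ 2)
              = ∑ i, (μ i : ℝ) * ∑ j, (d j i : ℝ) * y j ^ 2 := by
            rw [Finset.sum_comm]
            exact Finset.sum_congr rfl fun i _ => by rw [Finset.mul_sum]
          have e6 : ∑ i, ∑ j, (μ i : ℝ) * ((d i j : ℝ) * (y i * y j))
              = ∑ i, (μ i : ℝ) * (y i * ∑ j, (d i j : ℝ) * y j) := by
            refine Finset.sum_congr rfl fun i _ => ?_
            rw [Finset.mul_sum, Finset.mul_sum]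
            exact Finset.sum_congr rfl fun j _ => by ring
          rw [e5, e6, Finset.mul_sum, ← Finset.sum_add_distrib, ← Finset.sum_add_distrib]
          refine Finset.sum_congr rfl fun i _ => ?_
          unfold Rf
          ring
        rw [e1, e4]
        have m1 : ∀ i, (1 : ℝ) ≤ μ i := fun i => by exact_mod_cast hμ1 i
        have dn : ∀ i j, (0 : ℝ) ≤ d i j := fun i j => by exact_mod_cast hd.nonneg i j
        have e7 : ∑ i, ∑ j, (d i j : ℝ) * y i ^ 2 ≤ ∑ i, ∑ j, (μ j : ℝ) * ((d i j : ℝ) * y i ^ 2) := by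
          refine Finset.sum_le_sum fun i _ => Finset.sum_le_sum fun j _ => ?_
          exact le_mul_of_one_le_left (mul_nonneg (dn i j) (sq_nonneg _)) (m1 j)
        have e8 : ∑ i, ∑ j, (d i j : ℝ) * (y i * y j)
            ≤ ∑ i, ∑ j, (μ i : ℝ) * ((d i j : ℝ) * (y i * y j)) := by
          refine Finset.sum_le_sum fun i _ => Finset.sum_le_sum fun j _ => ?_
          exact le_mul_of_one_le_left (mul_nonneg (dn i j) (mul_nonneg (hy0 i) (hy0 j))) (m1 i)
        linarith
      have hquad := quad (k + 1) d hd A hA y hy0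
      rw [hy1, one_pow, mul_one] at hquad
      have e9 : A ^ 2 * ∑ i, (μ i : ℝ) * Rf d y i = (∑ i, (μ i : ℝ)) * (4 + f y) := by
        rw [Finset.mul_sum, Finset.sum_mul]
        refine Finset.sum_congr rfl fun i _ => ?_
        rw [← hcrit i]
        ring
      push_cast at hμA
      have e10 : (∑ i, (μ i : ℝ)) * (4 + f y) ≤ A * (4 + f y) :=
        mul_le_mul_of_nonneg_right hμA h4f
      have e11 : A * 4 ≤ A * (A * Qf d y) := mul_le_mul_of_nonneg_left hquad hA1.le
      have e12 : A ^ 2 * Qf d y ≤ A ^ 2 * ∑ i, (μ i : ℝ) * Rf d y i :=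
        mul_le_mul_of_nonneg_left hQ (sq_nonneg _)
      have e13 : A * f y < 0 := mul_neg_of_pos_of_neg hA1 hfy
      nlinarith [e9, e10, e11, e12, e13]

end Pool.Agent.H8.DigTuran
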