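import Mathlib

set_option autoImplicit false

namespace Pool.Agent.H8.DigTuran

/-- `G` is a 3-graph on `n` vertices in which no `m` vertices span all their triples. -/
def CliqueFree (n m : ℕ) (G : Finset (Finset (Fin n))) : Prop :=
  (∀ e ∈ G, e.card = 3) ∧ ∀ S : Finset (Fin n), S.card = m → ¬ (S.powersetCard 3 ⊆ G)

/-- The 3-graph on `n` vertices given by a partition of the vertices into parts (`c v` is the part
containing `v`) and a directed graph `D` on the set of parts, loops allowed: a triple is left out
exactly when two of its vertices lie in one part `i` and the third one lies in a part `j`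
with an arc from `i` to `j` (here `j = i` is allowed, if `D` has a loop at `i`). -/
noncomputable def digraph3 (n : ℕ) (c : Fin n → ℕ) (D : ℕ → ℕ → Prop) :
    Finset (Finset (Fin n)) := by
  classical
  exact (Finset.univ.powersetCard 3).filter
    (fun e => ∀ u v w, e = {u, v, w} → c u = c v → ¬ D (c u) (c w))

/-- The largest number of edges of a 3-graph on `n` vertices that comes from a partition and a
directed graph on the parts as in `digraph3`, and contains no complete 3-graph on `m` vertices. -/
noncomputable def exDigraph (n m : ℕ) : ℕ :=
  sSup {N : ℕ | ∃ (c : Fin n → ℕ) (D : ℕ → ℕ → Prop),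
    CliqueFree n m (digraph3 n c D) ∧ (digraph3 n c D).card = N}

end Pool.Agent.H8.DigTuran
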