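import Pool.Agent.H8.DigTuran.Bound

/-!
# The construction, and the limit
-/

set_option autoImplicit false

open Finset Filter Topology

namespace Pool.Agent.H8.DigTuran

/-! ### directed cycle -/

lemma sum_rotate {k : ℕ} (hk : 1 ≤ k) (f : ℕ → ℤ) :
    ∑ i ∈ Finset.range k, f ((i + 1) % k) = ∑ i ∈ Finset.range k, f i := by
  obtain ⟨k', rfl⟩ : ∃ k', k = k' + 1 := ⟨k - 1, by omega⟩
  rw [Finset.sum_range_succ, Finset.sum_range_succ', Nat.mod_self]
  congr 1
  refine Finset.sum_congr rfl fun i hi => ?_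
  rw [Finset.mem_range] at hi
  rw [Nat.mod_eq_of_lt (by omega)]

/-- the directed cycle (with loops) on `k` parts -/
def cyc (k : ℕ) (i j : ℕ) : Prop := j = i ∨ j = (i + 1) % k

/-- equal intervals -/
def blk (n k : ℕ) (x : Fin n) : ℕ := x.val / (n / k + 1)

lemma blk_lt {n k : ℕ} (hk : 1 ≤ k) (x : Fin n) : blk n k x < k := by
  unfold blk
  rw [Nat.div_lt_iff_lt_mul (Nat.succ_pos _)]
  exact lt_trans x.isLt (Nat.lt_mul_div_succ n hk)

lemma card_part_blk (n k i : ℕ) : (part (blk n k) i).card ≤ n / k + 1 := by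
  have h : ((part (blk n k) i).image (fun x : Fin n => x.val)) ⊆
      Finset.Ico (i * (n / k + 1)) (i * (n / k + 1) + (n / k + 1)) := by
    intro y hy
    rw [Finset.mem_image] at hy
    obtain ⟨x, hx, rfl⟩ := hy
    rw [mem_part] at hx
    unfold blk at hx
    rw [Finset.mem_Ico]
    have hq : 0 < n / k + 1 := Nat.succ_pos _
    generalize n / k + 1 = q at *
    have h1 := Nat.div_add_mod x.val q
    have h2 := Nat.mod_lt x.val hq
    rw [hx] at h1
    rw [mul_comm] at h1
    constructor <;> omega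
  have h2 := Finset.card_le_card h
  rwa [Finset.card_image_of_injective _ Fin.val_injective, Nat.card_Ico,
    Nat.add_sub_cancel_left] at h2

lemma cliqueFree_cyc {n k : ℕ} (hk : 2 ≤ k) :
    CliqueFree n (k + 1) (digraph3 n (blk n k) (cyc k)) := by
  classical
  refine ⟨fun e he => ((mem_digraph3 _).1 he).1, fun S hS hsub => ?_⟩
  set c := blk n k with hc
  have key : ∀ u ∈ S, ∀ v ∈ S, ∀ w ∈ S, u ≠ v → u ≠ w → v ≠ w → c u = c v →
      ¬ cyc k (c u) (c w) := by
    intro u hu v hv w hw huv huw hvw h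
    have hmem : ({u, v, w} : Finset (Fin n)) ∈ digraph3 n c (cyc k) := by
      apply hsub
      rw [Finset.mem_powersetCard]
      refine ⟨?_, Finset.card_eq_three.2 ⟨u, v, w, huv, huw, hvw, rfl⟩⟩
      intro x hx
      simp only [Finset.mem_insert, Finset.mem_singleton] at hx
      rcases hx with rfl | rfl | rfl <;> assumption
    exact ((mem_digraph3 _).1 hmem).2 u v w rfl h
  have hcard : ∑ i ∈ Finset.range k, ((S.filter (fun v => c v = i)).card : ℤ) = k + 1 := by
    have h1 : S.card = ∑ i ∈ Finset.range k, (S.filter (fun v => c v = i)).card := by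
      refine Finset.card_eq_sum_card_fiberwise (f := c) (fun v _ => ?_)
      rw [Finset.mem_coe, Finset.mem_range]
      exact blk_lt (by omega) v
    rw [hS] at h1
    exact_mod_cast h1.symm
  have hpt : ∀ i ∈ Finset.range k, ((S.filter (fun v => c v = i)).card : ℤ)
      ≤ 1 + (if (S.filter (fun v => c v = (i + 1) % k)).card = 0 then 1 else 0)
        - (if (S.filter (fun v => c v = i)).card = 0 then 1 else 0) := by
    intro i hi
    rw [Finset.mem_range] at hi
    have h2 : (S.filter (fun v => c v = i)).card ≤ 2 := by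
      by_contra h3
      push Not at h3
      obtain ⟨u, v, w, hu, hv, hw, huv, huw, hvw⟩ := Finset.two_lt_card_iff.1 h3
      rw [Finset.mem_filter] at hu hv hw
      refine key u hu.1 v hv.1 w hw.1 huv huw hvw (hu.2.trans hv.2.symm) ?_
      left
      rw [hu.2, hw.2]
    by_cases h3 : (S.filter (fun v => c v = i)).card = 2
    · have h4 : (S.filter (fun v => c v = (i + 1) % k)).card = 0 := by
        by_contra h5
        obtain ⟨w, hw⟩ := Finset.card_pos.1 (Nat.pos_of_ne_zero h5)
        obtain ⟨u, v, huv, huv'⟩ := Finset.card_eq_two.1 h3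
        have hu : u ∈ S.filter (fun v => c v = i) := by rw [huv']; simp
        have hv : v ∈ S.filter (fun v => c v = i) := by rw [huv']; simp
        rw [Finset.mem_filter] at hu hv hw
        have hne : (i + 1) % k ≠ i := by
          rcases Nat.lt_or_ge (i + 1) k with h | h
          · rw [Nat.mod_eq_of_lt h]; omega
          · have : i + 1 = k := by omega
            rw [this, Nat.mod_self]; omega
        refine key u hu.1 v hv.1 w hw.1 huv ?_ ?_ (hu.2.trans hv.2.symm) ?_
        · rintro rfl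
          exact hne (hw.2.symm.trans hu.2)
        · rintro rfl
          exact hne (hw.2.symm.trans hv.2)
        · right
          rw [hu.2, hw.2]
      rw [h3, h4]
      norm_num
    · by_cases h4 : (S.filter (fun v => c v = i)).card = 0
      · rw [h4]
        simp only [if_true, Nat.cast_zero]
        split_ifs <;> norm_num
      · have h5 : (S.filter (fun v => c v = i)).card = 1 := by omega
        rw [h5]
        simp only [Nat.one_ne_zero, if_false, Nat.cast_one]
        split_ifs <;> norm_num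
  have hsum := Finset.sum_le_sum hpt
  rw [hcard, Finset.sum_sub_distrib, Finset.sum_add_distrib,
    sum_rotate (by omega) (fun j => if (S.filter (fun v => c v = j)).card = 0 then (1 : ℤ) else 0)]
    at hsum
  simp at hsum

lemma card_miss_cyc {n k : ℕ} (hk : 2 ≤ k) :
    6 * ((miss (blk n k) (cyc k)).card : ℝ) ≤ 4 * k * ((n : ℝ) / k + 1) ^ 3 := by
  classical
  set c := blk n k with hc
  set q := n / k + 1 with hq
  have hsub : miss c (cyc k) ⊆ (Finset.range k).biUnion (fun i => F1 c i)
      ∪ (Finset.range k).biUnion (fun i => F2 c i ((i + 1) % k)) := by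
    intro e he
    rw [mem_miss] at he
    obtain ⟨h3, u, v, w, rfl, huv, hD⟩ := he
    have hlt : c u < k := blk_lt (by omega) u
    have hne : u ≠ v := by
      rintro rfl
      have := Finset.card_le_two (a := u) (b := w)
      simp at h3
      omega
    rw [Finset.mem_union, Finset.mem_biUnion, Finset.mem_biUnion]
    rcases hD with h | h
    · left
      refine ⟨c u, Finset.mem_range.2 hlt, ?_⟩
      rw [F1, Finset.mem_powersetCard]
      refine ⟨?_, h3⟩
      intro x hx
      simp only [Finset.mem_insert, Finset.mem_singleton] at hx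
      rw [mem_part]
      rcases hx with rfl | rfl | rfl
      · rfl
      · exact huv.symm
      · exact h
    · right
      refine ⟨c u, Finset.mem_range.2 hlt, ?_⟩
      rw [F2, Finset.mem_image]
      refine ⟨({u, v}, w), ?_, ?_⟩
      · rw [Finset.mem_product, Finset.mem_powersetCard]
        refine ⟨⟨?_, Finset.card_pair hne⟩, (mem_part c).2 h⟩
        intro x hx
        simp only [Finset.mem_insert, Finset.mem_singleton] at hx
        rw [mem_part]
        rcases hx with rfl | rfl
        · rfl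
        · exact huv.symm
      · ext x
        simp only [Finset.mem_insert, Finset.mem_singleton]
        tauto
  have hq1 : ∀ i, (part c i).card ≤ q := fun i => card_part_blk n k i
  have h1 : ((miss c (cyc k)).card : ℝ) ≤ ∑ i ∈ Finset.range k, (((part c i).card.choose 3 : ℕ) : ℝ)
      + ∑ i ∈ Finset.range k,
        (((part c i).card.choose 2 * (part c ((i + 1) % k)).card : ℕ) : ℝ) := by
    have h2 := (Finset.card_le_card hsub).trans (Finset.card_union_le _ _)
    have h3 : ((Finset.range k).biUnion (fun i => F1 c i)).card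
        ≤ ∑ i ∈ Finset.range k, (part c i).card.choose 3 := by
      refine Finset.card_biUnion_le.trans (le_of_eq ?_)
      exact Finset.sum_congr rfl fun i _ => card_F1 c i
    have h4 : ((Finset.range k).biUnion (fun i => F2 c i ((i + 1) % k))).card
        ≤ ∑ i ∈ Finset.range k, (part c i).card.choose 2 * (part c ((i + 1) % k)).card := by
      refine Finset.card_biUnion_le.trans (Finset.sum_le_sum fun i _ => ?_)
      unfold F2
      refine Finset.card_image_le.trans (le_of_eq ?_)
      rw [Finset.card_product, Finset.card_powersetCard]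
    exact_mod_cast h2.trans (add_le_add h3 h4)
  have hq0 : (0 : ℝ) ≤ q := by positivity
  have h5 : ∀ i, 6 * (((part c i).card.choose 3 : ℕ) : ℝ) ≤ (q : ℝ) ^ 3 := by
    intro i
    refine (six_choose_le _).trans (pow_le_pow_left₀ (by positivity) ?_ 3)
    exact_mod_cast hq1 i
  have h6 : ∀ i, 6 * (((part c i).card.choose 2 * (part c ((i + 1) % k)).card : ℕ) : ℝ)
      ≤ 3 * (q : ℝ) ^ 3 := by
    intro i
    push_cast
    rw [Nat.cast_choose_two]
    have a1 : ((part c i).card : ℝ) ≤ q := by exact_mod_cast hq1 i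
    have a2 : ((part c ((i + 1) % k)).card : ℝ) ≤ q := by exact_mod_cast hq1 _
    have a3 : (0 : ℝ) ≤ (part c i).card := by positivity
    have a4 : (0 : ℝ) ≤ (part c ((i + 1) % k)).card := by positivity
    have a5 : ((part c i).card : ℝ) * (((part c i).card : ℝ) - 1) ≤ q ^ 2 := by nlinarith
    calc 6 * (((part c i).card : ℝ) * (((part c i).card : ℝ) - 1) / 2
          * ((part c ((i + 1) % k)).card : ℝ))
        = 3 * ((((part c i).card : ℝ) * (((part c i).card : ℝ) - 1))
          * ((part c ((i + 1) % k)).card : ℝ)) := by ring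
      _ ≤ 3 * (q ^ 2 * ((part c ((i + 1) % k)).card : ℝ)) := by
          have := mul_le_mul_of_nonneg_right a5 a4
          linarith
      _ ≤ 3 * (q ^ 2 * q) := by
          have := mul_le_mul_of_nonneg_left a2 (sq_nonneg (q : ℝ))
          linarith
      _ = 3 * (q : ℝ) ^ 3 := by ring
  have h7 : 6 * ((miss c (cyc k)).card : ℝ) ≤ 4 * k * (q : ℝ) ^ 3 := by
    calc 6 * ((miss c (cyc k)).card : ℝ)
        ≤ 6 * (∑ i ∈ Finset.range k, (((part c i).card.choose 3 : ℕ) : ℝ)
          + ∑ i ∈ Finset.range k,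
            (((part c i).card.choose 2 * (part c ((i + 1) % k)).card : ℕ) : ℝ)) := by
          linarith
      _ = ∑ i ∈ Finset.range k, (6 * (((part c i).card.choose 3 : ℕ) : ℝ)
          + 6 * (((part c i).card.choose 2 * (part c ((i + 1) % k)).card : ℕ) : ℝ)) := by
          rw [Finset.sum_add_distrib, ← Finset.mul_sum, ← Finset.mul_sum]
          ring
      _ ≤ ∑ i ∈ Finset.range k, ((q : ℝ) ^ 3 + 3 * (q : ℝ) ^ 3) :=
          Finset.sum_le_sum fun i _ => add_le_add (h5 i) (h6 i)
      _ = 4 * k * (q : ℝ) ^ 3 := by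
          rw [Finset.sum_const, Finset.card_range, nsmul_eq_mul]
          ring
  have h8 : (q : ℝ) ≤ (n : ℝ) / k + 1 := by
    rw [hq]
    push_cast
    have := @Nat.cast_div_le ℝ _ _ _ n k
    linarith
  have h9 : (q : ℝ) ^ 3 ≤ ((n : ℝ) / k + 1) ^ 3 := pow_le_pow_left₀ hq0 h8 3
  have h10 : (0 : ℝ) ≤ 4 * k := by positivity
  calc 6 * ((miss c (cyc k)).card : ℝ) ≤ 4 * k * (q : ℝ) ^ 3 := h7
    _ ≤ _ := mul_le_mul_of_nonneg_left h9 h10

/-! ### the extremal number -/

lemma exDigraph_bounds {n m : ℕ} (hm : 3 ≤ m) :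
    6 * (n.choose 3 : ℝ) - 4 * ((m : ℝ) - 1) * ((n : ℝ) / ((m : ℝ) - 1) + 1) ^ 3
      ≤ 6 * (exDigraph n m : ℝ) ∧
    6 * (exDigraph n m : ℝ) ≤ 6 * (n.choose 3 : ℝ) - 4 * (n : ℝ) ^ 3 / ((m : ℝ) - 1) ^ 2
      + 15 * (n : ℝ) ^ 2 := by
  set X : Set ℕ := {N : ℕ | ∃ (c : Fin n → ℕ) (D : ℕ → ℕ → Prop),
    CliqueFree n m (digraph3 n c D) ∧ (digraph3 n c D).card = N} with hX
  have hbdd : BddAbove X := by
    refine ⟨n.choose 3, ?_⟩
    rintro N ⟨c, D, _, rfl⟩
    have := card_add_miss c D
    omega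
  obtain ⟨k, rfl⟩ : ∃ k, m = k + 1 := ⟨m - 1, by omega⟩
  have hmem : (digraph3 n (blk n k) (cyc k)).card ∈ X :=
    ⟨blk n k, cyc k, cliqueFree_cyc (by omega), rfl⟩
  constructor
  · have h1 : (digraph3 n (blk n k) (cyc k)).card ≤ exDigraph n (k + 1) := le_csSup hbdd hmem
    have h2 := card_add_miss (blk n k) (cyc k)
    have h3 := card_miss_cyc (n := n) (k := k) (by omega)
    have h4 : ((digraph3 n (blk n k) (cyc k)).card : ℝ) + (miss (blk n k) (cyc k)).card
        = n.choose 3 := by exact_mod_cast h2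
    have h5 : ((digraph3 n (blk n k) (cyc k)).card : ℝ) ≤ exDigraph n (k + 1) := by
      exact_mod_cast h1
    push_cast
    rw [add_sub_cancel_right]
    linarith
  · have h1 : exDigraph n (k + 1) ∈ X := Nat.sSup_mem ⟨_, hmem⟩ hbdd
    obtain ⟨c, D, h2, h3⟩ := h1
    have h4 := card_le c (by omega) h2
    rw [h3] at h4
    exact h4

theorem main (m : ℕ) (hm : 3 ≤ m) :
    Tendsto (fun n : ℕ => (exDigraph n m : ℝ) / (n.choose 3 : ℝ)) atTop
      (𝓝 (1 - (2 / ((m : ℝ) - 1)) ^ 2)) := by
  set k : ℝ := (m : ℝ) - 1 with hk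
  have hk2 : 2 ≤ k := by
    have : (3 : ℝ) ≤ m := by exact_mod_cast hm
    linarith
  have hk0 : 0 < k := by linarith
  have hinv : Tendsto (fun n : ℕ => 1 / (n : ℝ)) atTop (𝓝 0) := tendsto_one_div_atTop_nhds_zero_nat
  -- 6 C(n,3) / n³ → 1
  have hC : Tendsto (fun n : ℕ => 6 * (n.choose 3 : ℝ) / (n : ℝ) ^ 3) atTop (𝓝 1) := by
    have h1 : Tendsto (fun n : ℕ => (1 - 1 / (n : ℝ)) * (1 - 2 * (1 / (n : ℝ)))) atTop
        (𝓝 ((1 - 0) * (1 - 2 * 0))) :=
      (tendsto_const_nhds.sub hinv).mul (tendsto_const_nhds.sub (hinv.const_mul 2))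
    have h2 : ((1 : ℝ) - 0) * (1 - 2 * 0) = 1 := by norm_num
    rw [h2] at h1
    refine h1.congr' ?_
    filter_upwards [eventually_ge_atTop 2] with n hn
    have hn0 : (0 : ℝ) < n := by
      have : 0 < n := by omega
      exact_mod_cast this
    rw [six_choose_real hn]
    field_simp
  -- 6 ex / n³ → 1 - 4/k²
  have hE : Tendsto (fun n : ℕ => 6 * (exDigraph n m : ℝ) / (n : ℝ) ^ 3) atTop
      (𝓝 (1 - (2 / k) ^ 2)) := by
    have hlow : Tendsto (fun n : ℕ => 6 * (n.choose 3 : ℝ) / (n : ℝ) ^ 3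
        - 4 * k * (1 / k + 1 / (n : ℝ)) ^ 3) atTop (𝓝 (1 - (2 / k) ^ 2)) := by
      have h1 := hC.sub ((((tendsto_const_nhds (x := 1 / k)).add hinv).pow 3).const_mul (4 * k))
      have h2 : 1 - 4 * k * (1 / k + 0) ^ 3 = 1 - (2 / k) ^ 2 := by
        field_simp
        ring
      rw [h2] at h1
      exact h1
    have hup : Tendsto (fun n : ℕ => 6 * (n.choose 3 : ℝ) / (n : ℝ) ^ 3 - 4 / k ^ 2
        + 15 * (1 / (n : ℝ))) atTop (𝓝 (1 - (2 / k) ^ 2)) := by
      have h1 := (hC.sub (tendsto_const_nhds (x := 4 / k ^ 2))).add (hinv.const_mul 15)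
      have h2 : 1 - 4 / k ^ 2 + 15 * 0 = 1 - (2 / k) ^ 2 := by
        field_simp
        ring
      rw [h2] at h1
      exact h1
    refine tendsto_of_tendsto_of_tendsto_of_le_of_le' hlow hup ?_ ?_
    · filter_upwards [eventually_ge_atTop 1] with n hn
      have hn0 : (0 : ℝ) < n := by exact_mod_cast hn
      have h1 := (exDigraph_bounds (n := n) hm).1
      rw [le_div_iff₀ (by positivity)]
      have h2 : (6 * (n.choose 3 : ℝ) / (n : ℝ) ^ 3 - 4 * k * (1 / k + 1 / (n : ℝ)) ^ 3)
          * (n : ℝ) ^ 3 = 6 * (n.choose 3 : ℝ) - 4 * k * ((n : ℝ) / k + 1) ^ 3 := by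
        field_simp
      rw [h2]
      exact h1
    · filter_upwards [eventually_ge_atTop 1] with n hn
      have hn0 : (0 : ℝ) < n := by exact_mod_cast hn
      have h1 := (exDigraph_bounds (n := n) hm).2
      rw [div_le_iff₀ (by positivity)]
      have h2 : (6 * (n.choose 3 : ℝ) / (n : ℝ) ^ 3 - 4 / k ^ 2 + 15 * (1 / (n : ℝ)))
          * (n : ℝ) ^ 3 = 6 * (n.choose 3 : ℝ) - 4 * (n : ℝ) ^ 3 / k ^ 2 + 15 * (n : ℝ) ^ 2 := by
        field_simp
      rw [h2]
      exact h1
  have h3 := hE.div hC one_ne_zero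
  rw [div_one] at h3
  refine h3.congr' ?_
  filter_upwards [eventually_ge_atTop 3] with n hn
  have hn0 : (0 : ℝ) < n := by
    have : 0 < n := by omega
    exact_mod_cast this
  have hc : (0 : ℝ) < n.choose 3 := by exact_mod_cast Nat.choose_pos hn
  simp only [Pi.div_apply]
  field_simp

end Pool.Agent.H8.DigTuran
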