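import Pool.Agent.H8.DigTuran.Cert

/-!
# Digraph patterns: the quadratic inequality `A · x M x ≥ 4 (∑ x)²`
-/

set_option autoImplicit false

open Finset Filter Topology

namespace Pool.Agent.H8.DigTuran

variable {k : ℕ}

/-- first order condition -/
lemma coeff_zero {p q r δ : ℝ} (hδ : 0 < δ)
    (h : ∀ t : ℝ, |t| < δ → 0 ≤ t * p + t ^ 2 * q + t ^ 3 * r) : p = 0 := by
  have hd : HasDerivAt (fun t : ℝ => t * p + t ^ 2 * q + t ^ 3 * r) p 0 := by
    have h1 := ((hasDerivAt_id (0 : ℝ)).mul_const p).add
      ((((hasDerivAt_id (0 : ℝ)).pow 2).mul_const q).add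
        (((hasDerivAt_id (0 : ℝ)).pow 3).mul_const r))
    refine (h1.congr_deriv ?_).congr_of_eventuallyEq (Eventually.of_forall fun t => ?_)
    · simp
    · simp [add_assoc]
  refine IsLocalMin.hasDerivAt_eq_zero ?_ hd
  have : ∀ᶠ t : ℝ in 𝓝 0, |t| < δ := by
    filter_upwards [Metric.ball_mem_nhds (0 : ℝ) hδ] with t ht
    simpa [Real.dist_eq] using ht
  filter_upwards [this] with t ht
  simpa using h t ht

/-- the vector `M x` -/
noncomputable def Mv (d : Fin k → Fin k → ℤ) (x : Fin k → ℝ) (i : Fin k) : ℝ :=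
  (diag d i : ℝ) * x i + ∑ j, ((d i j : ℝ) + d j i) * x j

/-- the quadratic form `x M x` -/
noncomputable def Qf (d : Fin k → Fin k → ℤ) (x : Fin k → ℝ) : ℝ := ∑ i, x i * Mv d x i

variable (d : Fin k → Fin k → ℤ)

lemma Mv_add (x y : Fin k → ℝ) (i : Fin k) : Mv d (x + y) i = Mv d x i + Mv d y i := by
  unfold Mv
  simp only [Pi.add_apply, mul_add, Finset.sum_add_distrib]
  ring

lemma Mv_symm (x y : Fin k → ℝ) : ∑ i, y i * Mv d x i = ∑ i, x i * Mv d y i := by
  unfold Mv
  simp only [mul_add, Finset.sum_add_distrib, Finset.mul_sum]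
  congr 1
  · exact Finset.sum_congr rfl fun i _ => by ring
  · rw [Finset.sum_comm]
    exact Finset.sum_congr rfl fun i _ => Finset.sum_congr rfl fun j _ => by ring

lemma Qf_add (x y : Fin k → ℝ) : Qf d (x + y) = Qf d x + 2 * ∑ i, y i * Mv d x i + Qf d y := by
  unfold Qf
  have h := Mv_symm d x y
  have : ∑ i, (x + y) i * Mv d (x + y) i = ∑ i, x i * Mv d x i + ∑ i, y i * Mv d x i
      + ∑ i, x i * Mv d y i + ∑ i, y i * Mv d y i := by
    rw [← Finset.sum_add_distrib, ← Finset.sum_add_distrib, ← Finset.sum_add_distrib]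
    refine Finset.sum_congr rfl fun i _ => ?_
    rw [Mv_add]
    simp only [Pi.add_apply]
    ring
  rw [this, ← h]
  ring

lemma Qf_smul (c : ℝ) (x : Fin k → ℝ) : Qf d (c • x) = c ^ 2 * Qf d x := by
  unfold Qf Mv
  rw [Finset.mul_sum]
  refine Finset.sum_congr rfl fun i _ => ?_
  simp only [Pi.smul_apply, smul_eq_mul, Finset.mul_sum, mul_add]
  congr 1
  · ring
  · exact Finset.sum_congr rfl fun j _ => by ring

lemma continuous_Qf : Continuous (Qf d) := by
  unfold Qf Mv
  fun_prop

variable {d}

lemma Qf_single (hd : Adj d) (i : Fin k) (t : ℝ) :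
    Qf d (Pi.single i t) = t ^ 2 * diag d i := by
  have h0 : (d i i : ℝ) = 0 := by rw [hd.irr]; norm_num
  unfold Qf
  rw [Finset.sum_eq_single i]
  · unfold Mv
    rw [Finset.sum_eq_single i]
    · simp [h0]
      ring
    · intro j _ hj
      simp [hj]
    · simp
  · intro j _ hj
    simp [hj]
  · simp

/-- restriction to the complement of a vertex -/
def del (d : Fin (k + 1) → Fin (k + 1) → ℤ) (p : Fin (k + 1)) (i j : Fin k) : ℤ :=
  d (p.succAbove i) (p.succAbove j)

lemma adj_del {d : Fin (k + 1) → Fin (k + 1) → ℤ} (hd : Adj d) (p : Fin (k + 1)) :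
    Adj (del d p) :=
  ⟨fun _ _ => hd.zo _ _, fun _ => hd.irr _⟩

lemma ind_del {d : Fin (k + 1) → Fin (k + 1) → ℤ} (p : Fin (k + 1))
    {a : Fin k → ℤ} (ha : Ind (del d p) a) :
    Ind d (p.insertNth (α := fun _ => ℤ) 0 a) := by
  refine ⟨fun i => ?_, fun i j hij hi => ?_⟩
  · rcases Fin.eq_self_or_eq_succAbove p i with h | ⟨i', h⟩
    · subst h; simp
    · subst h; simpa using ha.val i'
  · rcases Fin.eq_self_or_eq_succAbove p i with h | ⟨i', h⟩
    · subst h; simp at hi
    · subst h
      rcases Fin.eq_self_or_eq_succAbove p j with h' | ⟨j', h'⟩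
      · subst h'; simp
      · subst h'
        simp only [Fin.insertNth_apply_succAbove] at hi ⊢
        exact ha.arc i' j' hij hi

lemma sum_insertNth (p : Fin (k + 1)) (a : Fin k → ℤ) :
    ∑ i, (p.insertNth (α := fun _ => ℤ) 0 a) i = ∑ i, a i := by
  rw [Fin.sum_univ_succAbove _ p]
  simp

lemma diag_del_le {d : Fin (k + 1) → Fin (k + 1) → ℤ} (hd : Adj d) (p : Fin (k + 1)) (i : Fin k) :
    diag (del d p) i ≤ diag d (p.succAbove i) := by
  unfold diag
  rw [Fin.sum_univ_succAbove _ p]
  have := hd.nonneg (p.succAbove i) p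
  unfold del
  omega

lemma Qf_del_le {d : Fin (k + 1) → Fin (k + 1) → ℤ} (hd : Adj d) (p : Fin (k + 1))
    {x : Fin (k + 1) → ℝ} (hp : x p = 0) :
    Qf (del d p) (fun i => x (p.succAbove i)) ≤ Qf d x := by
  unfold Qf
  rw [Fin.sum_univ_succAbove _ p, hp, zero_mul, zero_add]
  refine Finset.sum_le_sum fun i _ => ?_
  unfold Mv
  rw [Fin.sum_univ_succAbove _ p, hp, mul_zero, zero_add, mul_add, mul_add]
  refine add_le_add ?_ le_rfl
  have h1 : (diag (del d p) i : ℝ) ≤ diag d (p.succAbove i) := by
    exact_mod_cast diag_del_le hd p i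
  nlinarith [mul_self_nonneg (x (p.succAbove i))]

lemma sum_pos_of {x : Fin k → ℝ} (hx : ∀ i, 0 ≤ x i) (h : ∑ i, x i ≤ 0) : x = 0 := by
  funext i
  have h1 := Finset.single_le_sum (fun j _ => hx j) (Finset.mem_univ i)
  have h2 := hx i
  simp only [Pi.zero_apply]
  linarith

/-- the quadratic inequality -/
theorem quad (k : ℕ) : ∀ (d : Fin k → Fin k → ℤ) (_ : Adj d) (A : ℝ)
    (_ : ∀ a, Ind d a → ((∑ i, a i : ℤ) : ℝ) ≤ A) (x : Fin k → ℝ) (_ : ∀ i, 0 ≤ x i),
    4 * (∑ i, x i) ^ 2 ≤ A * Qf d x := by
  induction k with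
  | zero =>
    intro d hd A hA x hx
    simp [Qf]
  | succ k IH =>
    intro d hd A hA x hx
    by_contra hcon
    push Not at hcon
    have hA1 : (0 : ℝ) < A := by
      have h1 : Ind d (fun _ => 1) := ⟨fun i => by simp, fun i j _ h => by omega⟩
      have := hA _ h1
      push_cast at this
      simp at this
      have h2 : (0 : ℝ) ≤ k := by positivity
      linarith
    set f : (Fin (k + 1) → ℝ) → ℝ := fun x => A * Qf d x - 4 * (∑ i, x i) ^ 2 with hf
    have hfx : f x < 0 := by simp only [hf]; linarith
    have hfs : ∀ (c : ℝ) (y : Fin (k + 1) → ℝ), f (c • y) = c ^ 2 * f y := by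
      intro c y
      simp only [hf, Qf_smul, Pi.smul_apply, smul_eq_mul, ← Finset.mul_sum]
      ring
    have hfc : Continuous f := by
      have := continuous_Qf d
      simp only [hf]
      fun_prop
    obtain ⟨y, hyS, hymin⟩ := (isCompact_stdSimplex ℝ (Fin (k + 1))).exists_isMinOn
      (⟨_, single_mem_stdSimplex ℝ (0 : Fin (k + 1))⟩) hfc.continuousOn
    -- homogeneous lower bound
    have hlow : ∀ z : Fin (k + 1) → ℝ, (∀ i, 0 ≤ z i) → f y * (∑ i, z i) ^ 2 ≤ f z := by
      intro z hz
      by_cases hs : 0 < ∑ i, z i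
      · have hmem : (∑ i, z i)⁻¹ • z ∈ stdSimplex ℝ (Fin (k + 1)) := by
          refine ⟨fun i => ?_, ?_⟩
          · simp only [Pi.smul_apply, smul_eq_mul]
            exact mul_nonneg (inv_nonneg.2 hs.le) (hz i)
          · simp only [Pi.smul_apply, smul_eq_mul, ← Finset.mul_sum]
            exact inv_mul_cancel₀ hs.ne'
        have h1 : f y ≤ f ((∑ i, z i)⁻¹ • z) := hymin hmem
        rw [hfs] at h1
        have h2 : (0 : ℝ) < (∑ i, z i) ^ 2 := by positivity
        calc f y * (∑ i, z i) ^ 2 ≤ ((∑ i, z i)⁻¹ ^ 2 * f z) * (∑ i, z i) ^ 2 :=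
              mul_le_mul_of_nonneg_right h1 h2.le
          _ = f z := by field_simp
      · have h0 := sum_pos_of hz (not_lt.1 hs)
        subst h0
        simp [hf, Qf]
    have hfy : f y < 0 := by
      have := hlow x hx
      by_contra hge
      push Not at hge
      have h2 : 0 ≤ f y * (∑ i, x i) ^ 2 := mul_nonneg hge (sq_nonneg _)
      linarith
    have hy0 : ∀ i, 0 ≤ y i := hyS.1
    have hy1 : ∑ i, y i = 1 := hyS.2
    by_cases hz : ∃ p, y p = 0
    · obtain ⟨p, hp⟩ := hz
      have h1 := IH (del d p) (adj_del hd p) A (fun a ha => by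
        have := hA _ (ind_del p ha)
        rwa [sum_insertNth] at this) (fun i => y (p.succAbove i)) (fun i => hy0 _)
      have h2 := Qf_del_le hd p hp
      have h3 : ∑ i, y (p.succAbove i) = ∑ i, y i := by
        rw [Fin.sum_univ_succAbove _ p, hp, zero_add]
      rw [h3] at h1
      have h4 := mul_le_mul_of_nonneg_left h2 hA1.le
      simp only [hf] at hfy
      linarith
    · push Not at hz
      have hpos : ∀ i, 0 < y i := fun i => lt_of_le_of_ne (hy0 i) (Ne.symm (hz i))
      -- critical point equations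
      have hcrit : ∀ i, A * Mv d y i - 4 = f y := by
        intro i
        have key : (2 * A * Mv d y i - 8 - 2 * f y) = 0 := by
          refine coeff_zero (q := A * diag d i - 4 - f y) (r := 0) (hpos i) (fun t ht => ?_)
          have hz' : ∀ j, 0 ≤ (y + Pi.single i t : Fin (k + 1) → ℝ) j := by
            intro j
            by_cases hj : j = i
            · subst hj
              simp only [Pi.add_apply, Pi.single_eq_same]
              have := (abs_lt.1 ht).1
              linarith
            · simpa [hj] using hy0 j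
          have h1 := hlow _ hz'
          have h2 : ∑ j, (y + Pi.single i t : Fin (k + 1) → ℝ) j = 1 + t := by
            simp [Finset.sum_add_distrib, hy1]
          have h3 : f (y + Pi.single i t) = f y + t * (2 * A * Mv d y i - 8)
              + t ^ 2 * (A * diag d i - 4) := by
            simp only [hf]
            rw [h2, Qf_add, Qf_single hd, hy1]
            have : ∑ j, (Pi.single i t : Fin (k + 1) → ℝ) j * Mv d y j = t * Mv d y i := by
              rw [Finset.sum_eq_single i]
              · simp
              · intro j _ hj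
                simp [hj]
              · simp
            rw [this]
            ring
          rw [h2, h3] at h1
          nlinarith [h1]
        linarith
      -- pair with the certificate
      set U : Fin (k + 1) → ℝ := fun i => ∑ a ∈ optSet d, (a i : ℝ) with hU
      have hU0 : ∀ i, 0 ≤ U i := by
        intro i
        refine Finset.sum_nonneg fun a ha => ?_
        exact_mod_cast (mem_optSet.1 ha).nonneg i
      have hUM : ∀ i, 4 * ((optSet d).card : ℝ) ≤ Mv d U i := by
        intro i
        have h1 := sum_cv_ge hd i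
        have h2 : ((∑ a ∈ optSet d, cv d a i : ℤ) : ℝ) = Mv d U i := by
          unfold Mv cv outn inn
          push_cast
          rw [Finset.sum_add_distrib, ← Finset.mul_sum]
          congr 1
          simp only [← Finset.sum_add_distrib, ← add_mul]
          rw [Finset.sum_comm]
          refine Finset.sum_congr rfl fun j _ => ?_
          rw [Finset.mul_sum]
        rw [← h2]
        exact_mod_cast h1
      have hUs : ∑ i, U i ≤ A * (optSet d).card := by
        simp only [hU]
        rw [Finset.sum_comm]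
        calc ∑ a ∈ optSet d, ∑ i, (a i : ℝ) ≤ ∑ a ∈ optSet d, A := by
              refine Finset.sum_le_sum fun a ha => ?_
              have := hA a (mem_optSet.1 ha).toInd
              push_cast at this
              exact this
          _ = A * (optSet d).card := by
              rw [Finset.sum_const, nsmul_eq_mul, mul_comm]
      have hc : (0 : ℝ) < (optSet d).card := by
        exact_mod_cast Finset.card_pos.2 (optSet_nonempty d)
      have hUpos : 0 < ∑ i, U i := by
        by_contra hle
        have h0 := sum_pos_of hU0 (not_lt.1 hle)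
        have h1 := hUM 0
        rw [h0] at h1
        unfold Mv at h1
        simp at h1
        linarith
      have e1 : ∑ i, U i * (A * Mv d y i - 4) = f y * ∑ i, U i := by
        rw [Finset.mul_sum]
        refine Finset.sum_congr rfl fun i _ => ?_
        rw [hcrit i]
        ring
      have e2 : ∑ i, U i * (A * Mv d y i - 4) = A * ∑ i, y i * Mv d U i - 4 * ∑ i, U i := by
        rw [← Mv_symm d y U, Finset.mul_sum, Finset.mul_sum, ← Finset.sum_sub_distrib]
        refine Finset.sum_congr rfl fun i _ => ?_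
        ring
      have e3 : 4 * ((optSet d).card : ℝ) ≤ ∑ i, y i * Mv d U i := by
        calc 4 * ((optSet d).card : ℝ) = ∑ i, y i * (4 * ((optSet d).card : ℝ)) := by
              rw [← Finset.sum_mul, hy1, one_mul]
          _ ≤ _ := Finset.sum_le_sum fun i _ => mul_le_mul_of_nonneg_left (hUM i) (hy0 i)
      have e4 := mul_le_mul_of_nonneg_left e3 hA1.le
      have e5 : f y * ∑ i, U i < 0 := mul_neg_of_neg_of_pos hfy hUpos
      rw [← e1, e2] at e5
      linarith

end Pool.Agent.H8.DigTuran
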