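import Pool.Agent.H8.DigTuran.Defs
import Pool.Agent.H8.DigTuran.Cubic

/-!
# Upper bound for the number of edges of a clique-free digraph 3-graph
-/

set_option autoImplicit false

open Finset Filter Topology

namespace Pool.Agent.H8.DigTuran

section

variable {n : ℕ} (c : Fin n → ℕ)

/-- a part -/
def part (i : ℕ) : Finset (Fin n) := Finset.univ.filter (fun v => c v = i)

@[simp] lemma mem_part {i : ℕ} {v : Fin n} : v ∈ part c i ↔ c v = i := by
  simp [part]

lemma mem_digraph3 {D : ℕ → ℕ → Prop} {e : Finset (Fin n)} :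
    e ∈ digraph3 n c D ↔ e.card = 3 ∧ ∀ u v w, e = {u, v, w} → c u = c v → ¬ D (c u) (c w) := by
  classical
  unfold digraph3
  rw [Finset.mem_filter, Finset.mem_powersetCard]
  simp

/-- independent sets of the complement are cliques -/
lemma not_of_indep {m : ℕ} {D : ℕ → ℕ → Prop} (hG : CliqueFree n m (digraph3 n c D))
    {S : Finset (Fin n)} (hS : m ≤ S.card)
    (h : ∀ u ∈ S, ∀ v ∈ S, ∀ w ∈ S, u ≠ v → u ≠ w → v ≠ w → c u = c v → ¬ D (c u) (c w)) :
    False := by
  classical
  obtain ⟨S', hS', hcard⟩ := Finset.exists_subset_card_eq hS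
  refine hG.2 S' hcard (fun e he => ?_)
  rw [Finset.mem_powersetCard] at he
  rw [mem_digraph3]
  refine ⟨he.2, fun u v w huvw huv => ?_⟩
  have h3 := he.2
  have hsub := he.1
  subst huvw
  have huS : u ∈ S := hS' (hsub (by simp))
  have hvS : v ∈ S := hS' (hsub (by simp))
  have hwS : w ∈ S := hS' (hsub (by simp))
  rw [Finset.card_eq_three] at h3
  have hne : u ≠ v ∧ u ≠ w ∧ v ≠ w := by
    have h3' := he.2
    refine ⟨?_, ?_, ?_⟩
    · rintro rfl
      have := Finset.card_le_two (a := u) (b := w)
      simp at h3'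
      omega
    · rintro rfl
      have : ({u, v, u} : Finset (Fin n)) = {u, v} := by
        ext x; simp; tauto
      rw [this] at h3'
      have := Finset.card_le_two (a := u) (b := v)
      omega
    · rintro rfl
      have : ({u, v, v} : Finset (Fin n)) = {u, v} := by
        ext x; simp
      rw [this] at h3'
      have := Finset.card_le_two (a := u) (b := v)
      omega
  exact h u huS v hvS w hwS hne.1 hne.2.1 hne.2.2 huv

/-- the used parts -/
def cols : Finset ℕ := Finset.univ.image c

/-- fewer than `m` parts are used -/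
lemma card_cols_lt {m : ℕ} {D : ℕ → ℕ → Prop} (hG : CliqueFree n m (digraph3 n c D)) :
    (cols c).card < m := by
  classical
  by_contra hge
  push Not at hge
  have hex : ∀ i ∈ cols c, ∃ v, c v = i := by
    intro i hi
    simpa [cols] using hi
  rcases (cols c).eq_empty_or_nonempty with h0 | ⟨i0, hi0⟩
  · rw [h0, Finset.card_empty] at hge
    exact not_of_indep c hG (S := ∅) (by simpa using hge) (by simp)
  have hne : Nonempty (Fin n) := by
    obtain ⟨v, _⟩ := hex i0 hi0
    exact ⟨v⟩
  choose! r hr using hex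
  have hinj : Set.InjOn r (cols c : Set ℕ) := by
    intro i hi j hj hij
    rw [← hr i hi, ← hr j hj, hij]
  have hcard : ((cols c).image r).card = (cols c).card := Finset.card_image_of_injOn hinj
  refine not_of_indep c hG (S := (cols c).image r) (by rw [hcard]; exact hge) ?_
  intro u hu v hv w hw huv _ _ hc
  exfalso
  rw [Finset.mem_image] at hu hv
  obtain ⟨i, hi, rfl⟩ := hu
  obtain ⟨j, hj, rfl⟩ := hv
  rw [hr i hi, hr j hj] at hc
  exact huv (by rw [hc])

lemma loop_of_big {m : ℕ} {D : ℕ → ℕ → Prop} (hG : CliqueFree n m (digraph3 n c D)) {i : ℕ}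
    (hi : m ≤ (part c i).card) : D i i := by
  by_contra hD
  refine not_of_indep c hG hi ?_
  intro u hu v hv w hw _ _ _ _
  rw [mem_part] at hu hv hw
  rw [hu, hw]
  exact hD

/-- adjacency matrix of the digraph on the parts `ι 0, ι 1, ...` -/
noncomputable def dmat (D : ℕ → ℕ → Prop) {k : ℕ} (ι : Fin k → ℕ) (i j : Fin k) : ℤ := by
  classical
  exact if i ≠ j ∧ D (ι i) (ι j) then 1 else 0

lemma adj_dmat (D : ℕ → ℕ → Prop) {k : ℕ} (ι : Fin k → ℕ) : Adj (dmat D ι) := by
  classical
  refine ⟨fun i j => ?_, fun i => ?_⟩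
  · unfold dmat
    split_ifs <;> simp
  · simp [dmat]

lemma dmat_eq_one {D : ℕ → ℕ → Prop} {k : ℕ} {ι : Fin k → ℕ} {i j : Fin k} :
    dmat D ι i j = 1 ↔ i ≠ j ∧ D (ι i) (ι j) := by
  classical
  unfold dmat
  split_ifs with h <;> simp [h]

/-- independent vectors have small sum -/
lemma ind_sum_lt {m : ℕ} {D : ℕ → ℕ → Prop} (hm : 2 ≤ m) (hG : CliqueFree n m (digraph3 n c D))
    {k : ℕ} {ι : Fin k → ℕ} (hι : Function.Injective ι) (hbig : ∀ j, m ≤ (part c (ι j)).card)
    {a : Fin k → ℤ} (ha : Ind (dmat D ι) a) : ∑ i, a i < m := by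
  classical
  by_contra hge
  push Not at hge
  have hex : ∀ j, ∃ A ⊆ part c (ι j), A.card = (a j).toNat := by
    intro j
    refine Finset.exists_subset_card_eq ?_
    have h1 := ha.le_two j
    have h2 := hbig j
    omega
  choose A hA1 hA2 using hex
  have hAc : ∀ j, ∀ v ∈ A j, c v = ι j := fun j v hv => (mem_part c).1 (hA1 j hv)
  have hdisj : ∀ i ∈ (Finset.univ : Finset (Fin k)), ∀ j ∈ (Finset.univ : Finset (Fin k)),
      i ≠ j → Disjoint (A i) (A j) := by
    intro i _ j _ hij
    rw [Finset.disjoint_left]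
    intro v hv hv'
    exact hij (hι ((hAc i v hv).symm.trans (hAc j v hv')))
  have hcard : ((Finset.univ.biUnion A).card : ℤ) = ∑ i, a i := by
    rw [Finset.card_biUnion hdisj]
    push_cast
    refine Finset.sum_congr rfl fun i _ => ?_
    rw [hA2]
    exact Int.toNat_of_nonneg (ha.nonneg i)
  refine not_of_indep c hG (S := Finset.univ.biUnion A) (by omega) ?_
  intro u hu v hv w hw huv huw hvw huv' hDuw
  simp only [Finset.mem_biUnion, Finset.mem_univ, true_and] at hu hv hw
  obtain ⟨i, hi⟩ := hu
  obtain ⟨i', hi'⟩ := hv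
  obtain ⟨j, hj⟩ := hw
  have hii : i' = i := by
    apply hι
    rw [← hAc i u hi, ← hAc i' v hi', huv']
  subst hii
  have h2 : 2 ≤ (A i').card := by
    have : ({u, v} : Finset (Fin n)) ⊆ A i' := by
      intro x hx
      rw [Finset.mem_insert, Finset.mem_singleton] at hx
      rcases hx with rfl | rfl <;> assumption
    calc 2 = ({u, v} : Finset (Fin n)).card := (Finset.card_pair huv).symm
      _ ≤ _ := Finset.card_le_card this
  have h3 := ha.le_two i'
  have h4 := hA2 i'
  have h5 : a i' = 2 := by omega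
  by_cases hij : i' = j
  · subst hij
    have : ({u, v, w} : Finset (Fin n)) ⊆ A i' := by
      intro x hx
      simp only [Finset.mem_insert, Finset.mem_singleton] at hx
      rcases hx with rfl | rfl | rfl <;> assumption
    have h6 := Finset.card_le_card this
    rw [Finset.card_eq_three.2 ⟨u, v, w, huv, huw, hvw, rfl⟩] at h6
    omega
  · have h6 : dmat D ι i' j = 1 := by
      rw [dmat_eq_one]
      refine ⟨hij, ?_⟩
      rw [← hAc i' u hi, ← hAc j w hj]
      exact hDuw
    have h7 := ha.arc i' j h6 h5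
    have h8 : 0 < (A j).card := Finset.card_pos.2 ⟨w, hj⟩
    rw [hA2 j] at h8
    omega

/-! ### counting the missing triples -/

/-- number of vertices of `e` in part `i` -/
def prof (e : Finset (Fin n)) (i : ℕ) : ℕ := (e.filter (fun v => c v = i)).card

lemma sum_prof_le (e : Finset (Fin n)) (s : Finset ℕ) : ∑ i ∈ s, prof c e i ≤ e.card := by
  classical
  unfold prof
  rw [← Finset.card_biUnion]
  · refine Finset.card_le_card (fun v hv => ?_)
    simp only [Finset.mem_biUnion, Finset.mem_filter] at hv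
    obtain ⟨_, _, h, _⟩ := hv
    exact h
  · intro i _ j _ hij
    rw [Function.onFun, Finset.disjoint_left]
    intro v hv hv'
    rw [Finset.mem_filter] at hv hv'
    exact hij (hv.2.symm.trans hv'.2)

lemma prof_two (e : Finset (Fin n)) {i j : ℕ} (hij : i ≠ j) :
    prof c e i + prof c e j ≤ e.card := by
  have := sum_prof_le c e {i, j}
  rwa [Finset.sum_pair hij] at this

lemma prof_three (e : Finset (Fin n)) {i j l : ℕ} (hij : i ≠ j) (hil : i ≠ l) (hjl : j ≠ l) :
    prof c e i + prof c e j + prof c e l ≤ e.card := by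
  have := sum_prof_le c e {i, j, l}
  rw [Finset.sum_insert (by simp [hij, hil]), Finset.sum_pair hjl] at this
  omega

/-- missing triples inside a part -/
def F1 (i : ℕ) : Finset (Finset (Fin n)) := (part c i).powersetCard 3

/-- missing triples with two vertices in part `i` and one in part `j` -/
def F2 (i j : ℕ) : Finset (Finset (Fin n)) :=
  ((part c i).powersetCard 2 ×ˢ part c j).image (fun p => insert p.2 p.1)

lemma card_F1 (i : ℕ) : (F1 c i).card = (part c i).card.choose 3 := by
  simp [F1]

lemma prof_F1 {i : ℕ} {e : Finset (Fin n)} (he : e ∈ F1 c i) : e.card = 3 ∧ prof c e i = 3 := by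
  rw [F1, Finset.mem_powersetCard] at he
  refine ⟨he.2, ?_⟩
  unfold prof
  rw [Finset.filter_true_of_mem, he.2]
  intro v hv
  exact (mem_part c).1 (he.1 hv)

lemma filter_insert_i {i j : ℕ} (hij : i ≠ j) {e : Finset (Fin n)} {w : Fin n}
    (he : e ⊆ part c i) (hw : w ∈ part c j) :
    (insert w e).filter (fun v => c v = i) = e ∧ (insert w e).filter (fun v => c v = j) = {w} := by
  rw [mem_part] at hw
  constructor
  · ext v
    simp only [Finset.mem_filter, Finset.mem_insert]
    constructor
    · rintro ⟨h1 | h1, h2⟩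
      · subst h1; exact absurd (h2.symm.trans hw) hij
      · exact h1
    · intro h
      exact ⟨Or.inr h, (mem_part c).1 (he h)⟩
  · ext v
    simp only [Finset.mem_filter, Finset.mem_insert, Finset.mem_singleton]
    constructor
    · rintro ⟨h1 | h1, h2⟩
      · exact h1
      · exact absurd (((mem_part c).1 (he h1)).symm.trans h2) hij
    · rintro rfl
      exact ⟨Or.inl rfl, hw⟩

lemma card_F2 {i j : ℕ} (hij : i ≠ j) :
    (F2 c i j).card = (part c i).card.choose 2 * (part c j).card := by
  classical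
  unfold F2
  rw [Finset.card_image_of_injOn, Finset.card_product, Finset.card_powersetCard]
  rintro ⟨e, w⟩ h ⟨e', w'⟩ h' heq
  rw [Finset.mem_coe, Finset.mem_product, Finset.mem_powersetCard] at h h'
  simp only at h h' heq
  have h1 := filter_insert_i c hij h.1.1 h.2
  have h2 := filter_insert_i c hij h'.1.1 h'.2
  rw [heq] at h1
  have e1 : e = e' := h1.1.symm.trans h2.1
  have e2 : w = w' := Finset.singleton_injective (h1.2.symm.trans h2.2)
  rw [e1, e2]

lemma prof_F2 {i j : ℕ} (hij : i ≠ j) {e : Finset (Fin n)} (he : e ∈ F2 c i j) :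
    e.card = 3 ∧ prof c e i = 2 ∧ prof c e j = 1 := by
  unfold F2 at he
  rw [Finset.mem_image] at he
  obtain ⟨⟨f, w⟩, h, rfl⟩ := he
  rw [Finset.mem_product, Finset.mem_powersetCard] at h
  simp only at h ⊢
  have h1 := filter_insert_i c hij h.1.1 h.2
  refine ⟨?_, ?_, ?_⟩
  · rw [Finset.card_insert_of_notMem, h.1.2]
    intro hw
    exact hij (((mem_part c).1 (h.1.1 hw)).symm.trans ((mem_part c).1 h.2))
  · unfold prof
    rw [h1.1, h.1.2]
  · unfold prof
    rw [h1.2, Finset.card_singleton]

/-- missing triples -/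
noncomputable def miss (D : ℕ → ℕ → Prop) : Finset (Finset (Fin n)) := by
  classical
  exact (Finset.univ.powersetCard 3) \ digraph3 n c D

lemma card_add_miss (D : ℕ → ℕ → Prop) :
    (digraph3 n c D).card + (miss c D).card = n.choose 3 := by
  classical
  unfold miss
  have hsub : digraph3 n c D ⊆ Finset.univ.powersetCard 3 := by
    intro e he
    rw [mem_digraph3] at he
    rw [Finset.mem_powersetCard]
    exact ⟨Finset.subset_univ _, he.1⟩
  rw [Finset.card_sdiff_of_subset hsub, Finset.card_powersetCard, Finset.card_univ,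
    Fintype.card_fin]
  have := Finset.card_le_card hsub
  rw [Finset.card_powersetCard, Finset.card_univ, Fintype.card_fin] at this
  omega

lemma mem_miss {D : ℕ → ℕ → Prop} {e : Finset (Fin n)} :
    e ∈ miss c D ↔ e.card = 3 ∧ ∃ u v w, e = {u, v, w} ∧ c u = c v ∧ D (c u) (c w) := by
  classical
  unfold miss
  rw [Finset.mem_sdiff, mem_digraph3, Finset.mem_powersetCard]
  constructor
  · rintro ⟨⟨_, h1⟩, h2⟩
    refine ⟨h1, ?_⟩
    push Not at h2
    exact h2 h1
  · rintro ⟨h1, u, v, w, h2, h3, h4⟩
    exact ⟨⟨Finset.subset_univ _, h1⟩, fun h => h.2 u v w h2 h3 h4⟩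

lemma F1_sub {D : ℕ → ℕ → Prop} {i : ℕ} (hi : D i i) : F1 c i ⊆ miss c D := by
  intro e he
  have h1 := (prof_F1 c he).1
  rw [F1, Finset.mem_powersetCard] at he
  rw [mem_miss]
  refine ⟨h1, ?_⟩
  obtain ⟨u, v, w, _, _, _, rfl⟩ := Finset.card_eq_three.1 h1
  have hu := (mem_part c).1 (he.1 (show u ∈ ({u, v, w} : Finset (Fin n)) by simp))
  have hv := (mem_part c).1 (he.1 (show v ∈ ({u, v, w} : Finset (Fin n)) by simp))
  have hw := (mem_part c).1 (he.1 (show w ∈ ({u, v, w} : Finset (Fin n)) by simp))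
  exact ⟨u, v, w, rfl, by rw [hu, hv], by rw [hu, hw]; exact hi⟩

lemma F2_sub {D : ℕ → ℕ → Prop} {i j : ℕ} (hij : i ≠ j) (h : D i j) : F2 c i j ⊆ miss c D := by
  intro e he
  have h1 := (prof_F2 c hij he).1
  unfold F2 at he
  rw [Finset.mem_image] at he
  obtain ⟨⟨f, w⟩, hf, rfl⟩ := he
  rw [Finset.mem_product, Finset.mem_powersetCard] at hf
  simp only at hf h1 ⊢
  rw [mem_miss]
  refine ⟨h1, ?_⟩
  obtain ⟨u, v, _, rfl⟩ := Finset.card_eq_two.1 hf.1.2
  have hu := (mem_part c).1 (hf.1.1 (show u ∈ ({u, v} : Finset (Fin n)) by simp))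
  have hv := (mem_part c).1 (hf.1.1 (show v ∈ ({u, v} : Finset (Fin n)) by simp))
  have hw := (mem_part c).1 hf.2
  refine ⟨u, v, w, ?_, by rw [hu, hv], by rw [hu, hw]; exact h⟩
  ext x
  simp only [Finset.mem_insert, Finset.mem_singleton]
  tauto

/-- lower bound for the number of missing triples -/
lemma card_miss_ge (D : ℕ → ℕ → Prop) {k : ℕ} {ι : Fin k → ℕ} (hι : Function.Injective ι)
    (hloop : ∀ j, D (ι j) (ι j)) :
    ∑ j, ((part c (ι j)).card.choose 3 : ℤ)
      + ∑ i, ∑ j, dmat D ι i j * ((part c (ι i)).card.choose 2 * (part c (ι j)).card)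
      ≤ (miss c D).card := by
  classical
  set P : Finset (Fin k × Fin k) := Finset.univ.filter (fun p => dmat D ι p.1 p.2 = 1) with hP
  have hPmem : ∀ p ∈ P, ι p.1 ≠ ι p.2 ∧ D (ι p.1) (ι p.2) := by
    intro p hp
    rw [hP, Finset.mem_filter, dmat_eq_one] at hp
    exact ⟨fun h => hp.2.1 (hι h), hp.2.2⟩
  set U1 := (Finset.univ : Finset (Fin k)).biUnion (fun j => F1 c (ι j)) with hU1
  set U2 := P.biUnion (fun p => F2 c (ι p.1) (ι p.2)) with hU2
  have hc1 : U1.card = ∑ j, (part c (ι j)).card.choose 3 := by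
    rw [hU1, Finset.card_biUnion]
    · exact Finset.sum_congr rfl fun j _ => card_F1 c _
    · intro i _ j _ hij
      rw [Function.onFun, Finset.disjoint_left]
      intro e he he'
      have h1 := prof_F1 c he
      have h2 := prof_F1 c he'
      have h3 := prof_two c e (fun h => hij (hι h))
      omega
  have hc2 : U2.card = ∑ p ∈ P, (part c (ι p.1)).card.choose 2 * (part c (ι p.2)).card := by
    rw [hU2, Finset.card_biUnion]
    · exact Finset.sum_congr rfl fun p hp => card_F2 c (hPmem p hp).1
    · rintro ⟨i, j⟩ hp ⟨i', j'⟩ hp' hne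
      rw [Function.onFun, Finset.disjoint_left]
      intro e he he'
      have g1 := (hPmem _ hp).1
      have g2 := (hPmem _ hp').1
      simp only at he he' g1 g2
      have h1 := prof_F2 c g1 he
      have h2 := prof_F2 c g2 he'
      by_cases hii : i = i'
      · subst hii
        have hjj : j ≠ j' := fun h => hne (by rw [h])
        have h3 := prof_three c e g1 g2 (fun h => hjj (hι h))
        omega
      · have h3 := prof_two c e (fun h => hii (hι h))
        omega
  have hdisj : Disjoint U1 U2 := by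
    rw [Finset.disjoint_left]
    intro e he he'
    rw [hU1, Finset.mem_biUnion] at he
    rw [hU2, Finset.mem_biUnion] at he'
    obtain ⟨l, _, hl⟩ := he
    obtain ⟨⟨i, j⟩, hp, hij⟩ := he'
    have g1 := (hPmem _ hp).1
    simp only at hij g1
    have h1 := prof_F1 c hl
    have h2 := prof_F2 c g1 hij
    by_cases hli : l = i
    · subst hli
      omega
    · have h3 := prof_two c e (fun h => hli (hι h))
      omega
  have hsub : U1 ∪ U2 ⊆ miss c D := by
    refine Finset.union_subset ?_ ?_
    · rw [hU1, Finset.biUnion_subset]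
      intro j _
      exact F1_sub c (hloop j)
    · rw [hU2, Finset.biUnion_subset]
      intro p hp
      exact F2_sub c (hPmem p hp).1 (hPmem p hp).2
  have hcard := Finset.card_le_card hsub
  rw [Finset.card_union_of_disjoint hdisj, hc1, hc2] at hcard
  have e1 : ∑ i, ∑ j, dmat D ι i j * (((part c (ι i)).card.choose 2 : ℤ) * (part c (ι j)).card)
      = ((∑ p ∈ P, (part c (ι p.1)).card.choose 2 * (part c (ι p.2)).card : ℕ) : ℤ) := by
    rw [← Finset.sum_product', Finset.univ_product_univ, hP, Finset.sum_filter]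
    push_cast
    refine Finset.sum_congr rfl fun p _ => ?_
    rcases (adj_dmat D ι).zo p.1 p.2 with h | h
    · simp [h]
    · simp [h]
  rw [e1]
  exact_mod_cast hcard

end

end Pool.Agent.H8.DigTuran
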